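import Mathlib

set_option autoImplicit false
open scoped InnerProductSpace Topology
open Filter Set

namespace Pool.Agent.Helper22.SO

section general

theorem dep_choice {S : Type*} (s₀ : S) (R : ℕ → S → S → Prop) (h : ∀ n s, ∃ s', R n s s') :
    ∃ u : ℕ → S, u 0 = s₀ ∧ ∀ n, R n (u n) (u (n+1)) := by
  choose F hF using h
  exact ⟨fun n => Nat.rec s₀ (fun n s => F n s) n, rfl, fun n => hF n _⟩

theorem near_max {Y : Type*} (S : Set Y) (g : Y → ℝ) (M : ℝ) (hM : ∀ y ∈ S, g y ≤ M) (x : Y)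
    (hx : x ∈ S) (ε : ℝ) (hε : 0 < ε) :
    ∃ z ∈ S, g x ≤ g z ∧ ∀ y ∈ S, g y ≤ g z + ε := by
  have hne : (g '' S).Nonempty := ⟨g x, x, hx, rfl⟩
  have hbd : BddAbove (g '' S) := ⟨M, by rintro _ ⟨y, hy, rfl⟩; exact hM y hy⟩
  obtain ⟨_, ⟨z, hz, rfl⟩, hz'⟩ := exists_lt_of_lt_csSup hne (show sSup (g '' S) - ε < sSup (g '' S) by linarith)
  have hle : ∀ y ∈ S, g y ≤ sSup (g '' S) := fun y hy => le_csSup hbd ⟨y, hy, rfl⟩
  by_cases h : g x ≤ g z
  · exact ⟨z, hz, h, fun y hy => by linarith [hle y hy]⟩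
  · push Not at h
    exact ⟨x, hx, le_refl _, fun y hy => by linarith [hle y hy]⟩

theorem near_min {Y : Type*} (S : Set Y) (g : Y → ℝ) (M : ℝ) (hM : ∀ y ∈ S, M ≤ g y) (x : Y)
    (hx : x ∈ S) (ε : ℝ) (hε : 0 < ε) :
    ∃ z ∈ S, g z ≤ g x ∧ ∀ y ∈ S, g z ≤ g y + ε := by
  obtain ⟨z, hz, h1, h2⟩ := near_max S (fun y => - g y) (-M) (fun y hy => by simpa using hM y hy) x hx ε hε
  exact ⟨z, hz, by simpa using h1, fun y hy => by have := h2 y hy; simp at this; linarith⟩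

end general

variable {X : Type*} [NormedAddCommGroup X] [InnerProductSpace ℝ X]

/-- Borwein-Preiss type variational principle in a Hilbert space. -/
theorem bp [CompleteSpace X] (D : Set X) (hD : IsClosed D) (g : X → ℝ) (hg : Continuous g)
    (M : ℝ) (hM : ∀ y ∈ D, g y ≤ M) (x₀ : X) (hx₀ : x₀ ∈ D) (μ : ℝ) (hμ : 0 < μ) :
    ∃ x' ∈ D, ∃ v : X, g x₀ ≤ g x' ∧
      ∀ y ∈ D, g y ≤ g x' + ⟪v, y - x'⟫_ℝ + μ * ‖y - x'‖^2 := by
  -- weights
  set m : ℕ → ℝ := fun l => μ * (1/2)^(l+1) with hm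
  have hmpos : ∀ l, 0 < m l := fun l => by simp only [hm]; positivity
  let S := {s : (X → ℝ) × X // s.2 ∈ D ∧ ∀ y ∈ D, s.1 y ≤ M}
  let R : ℕ → S → S → Prop := fun l s s' =>
    (∀ y, s'.1.1 y = s.1.1 y - m l * ‖y - s.1.2‖^2) ∧ s'.1.1 s.1.2 ≤ s'.1.1 s'.1.2 ∧
      ∀ y ∈ D, s'.1.1 y ≤ s'.1.1 s'.1.2 + m (l+1) * (1/4)^(l+1)
  have hstep : ∀ l s, ∃ s', R l s s' := by
    rintro l ⟨⟨G, x⟩, hx, hG⟩
    have hb : ∀ y ∈ D, G y - m l * ‖y - x‖^2 ≤ M := fun y hy => by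
      have := hG y hy
      have h2 : 0 ≤ m l * ‖y - x‖^2 := by have := hmpos l; positivity
      simp only at this
      linarith
    obtain ⟨z, hz, h1, h2⟩ := near_max D (fun y => G y - m l * ‖y - x‖^2) M hb x hx
      (m (l+1) * (1/4)^(l+1)) (by have := hmpos (l+1); positivity)
    exact ⟨⟨⟨fun y => G y - m l * ‖y - x‖^2, z⟩, hz, hb⟩, fun y => rfl, h1, h2⟩
  obtain ⟨s, hs0, hs⟩ := dep_choice (⟨⟨g, x₀⟩, hx₀, hM⟩ : S) R hstep
  set x : ℕ → X := fun l => (s l).1.2 with hxdef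
  set G : ℕ → X → ℝ := fun l => (s l).1.1 with hGdef
  have hxD : ∀ l, x l ∈ D := fun l => (s l).2.1
  have hx0' : x 0 = x₀ := by simp [hxdef, hs0]
  have hG0 : G 0 = g := by simp [hGdef, hs0]
  have hGs : ∀ l y, G (l+1) y = G l y - m l * ‖y - x l‖^2 := fun l y => (hs l).1 y
  have hmono : ∀ l, G (l+1) (x l) ≤ G (l+1) (x (l+1)) := fun l => (hs l).2.1
  have hnear : ∀ l, ∀ y ∈ D, G (l+1) y ≤ G (l+1) (x (l+1)) + m (l+1) * (1/4)^(l+1) :=
    fun l => (hs l).2.2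
  have hGform : ∀ l y, G l y = g y - ∑ i ∈ Finset.range l, m i * ‖y - x i‖^2 := by
    intro l y
    induction l with
    | zero => simp [hG0]
    | succ l ih => rw [hGs, ih, Finset.sum_range_succ]; ring
  -- values increase
  have hval : ∀ l, g x₀ ≤ G l (x l) := by
    intro l
    induction l with
    | zero => simp [hG0, hx0']
    | succ l ih =>
      have h1 := hmono l
      have h2 := hGs l (x l)
      simp at h2
      linarith
  have hval' : ∀ l, g x₀ ≤ g (x l) := by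
    intro l
    have h1 := hval l
    rw [hGform] at h1
    have : 0 ≤ ∑ i ∈ Finset.range l, m i * ‖x l - x i‖^2 :=
      Finset.sum_nonneg (fun i _ => by have := hmpos i; positivity)
    linarith
  -- distances
  have hdist : ∀ l, ‖x (l+2) - x (l+1)‖ ≤ (1/2)^(l+1) := by
    intro l
    have h1 := hmono (l+1)
    have h2 := hnear l (x (l+2)) (hxD _)
    have h3 := hGs (l+1) (x (l+2))
    have h4 := hGs (l+1) (x (l+1))
    simp only [sub_self, norm_zero, ne_eq, OfNat.ofNat_ne_zero, not_false_eq_true, zero_pow, mul_zero, sub_zero] at h4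
    have h5 : m (l+1) * ‖x (l+2) - x (l+1)‖^2 ≤ m (l+1) * (1/4)^(l+1) := by
      have e1 : G (l+1+1) (x (l+1)) = G (l+1) (x (l+1)) := h4
      have e2 : G (l+1+1) (x (l+1+1)) = G (l+1) (x (l+2)) - m (l+1) * ‖x (l+2) - x (l+1)‖^2 := h3
      have e3 : G (l+1+1) (x (l+1)) ≤ G (l+1+1) (x (l+1+1)) := h1
      linarith
    have h6 : ‖x (l+2) - x (l+1)‖^2 ≤ (1/4)^(l+1) := le_of_mul_le_mul_left h5 (hmpos _)
    have h7 : ((1/4 : ℝ))^(l+1) = ((1/2)^(l+1))^2 := by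
      rw [← pow_mul, mul_comm, pow_mul]; norm_num
    rw [h7] at h6
    exact le_of_sq_le_sq h6 (by positivity)
  have hcau : CauchySeq (fun l => x (l+1)) := by
    apply cauchySeq_of_le_geometric (1/2) (1/2) (by norm_num)
    intro l
    rw [dist_comm, dist_eq_norm]
    have := hdist l
    calc ‖x (l+1+1) - x (l+1)‖ ≤ (1/2)^(l+1) := this
      _ = 1/2 * (1/2)^l := by ring
  obtain ⟨x', hx'⟩ := cauchySeq_tendsto_of_complete hcau
  have hx'D : x' ∈ D := hD.mem_of_tendsto hx' (Eventually.of_forall (fun l => hxD _))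
  -- boundedness of the sequence
  obtain ⟨b, hb⟩ := hcau.norm_bddAbove
  have hxb : ∀ l, ‖x l‖ ≤ max b ‖x 0‖ := by
    intro l
    rcases l with _ | l
    · exact le_max_right _ _
    · exact le_trans (hb ⟨l, rfl⟩) (le_max_left _ _)
  have hbnn : 0 ≤ max b ‖x 0‖ := le_trans (norm_nonneg _) (le_max_right _ _)
  have hmsum : HasSum m μ := by
    have h1 := (hasSum_geometric_two' μ)
    convert h1 using 1
    funext l
    simp only [hm, pow_succ, one_div, inv_pow]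
    field_simp
  have hasum : Summable (fun i => m i • x i) := by
    apply Summable.of_norm_bounded (g := fun i => m i * max b ‖x 0‖) (hmsum.summable.mul_right _)
    intro i
    rw [norm_smul, Real.norm_of_nonneg (hmpos i).le]
    exact mul_le_mul_of_nonneg_left (hxb i) (hmpos i).le
  set a : X := ∑' i, m i • x i with ha
  have hat : Tendsto (fun l => ∑ i ∈ Finset.range l, m i • x i) atTop (𝓝 a) := hasum.hasSum.tendsto_sum_nat
  have hmt : Tendsto (fun l => ∑ i ∈ Finset.range l, m i) atTop (𝓝 μ) := hmsum.tendsto_sum_nat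
  refine ⟨x', hx'D, (2:ℝ) • (μ • x' - a), ?_, ?_⟩
  · exact ge_of_tendsto (hg.continuousAt.tendsto.comp hx') (Eventually.of_forall (fun l => hval' (l+1)))
  · intro y hy
    -- finite-stage inequality
    have hfin : ∀ l, g y ≤ g (x (l+1)) + ⟪(2:ℝ) • ((∑ i ∈ Finset.range (l+1), m i) • x (l+1) - ∑ i ∈ Finset.range (l+1), m i • x i), y - x (l+1)⟫_ℝ
        + (∑ i ∈ Finset.range (l+1), m i) * ‖y - x (l+1)‖^2 + m (l+1) * (1/4)^(l+1) := by
      intro l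
      have h1 := hnear l y hy
      rw [hGform, hGform] at h1
      have key : ∑ i ∈ Finset.range (l+1), m i * ‖y - x i‖^2 = ∑ i ∈ Finset.range (l+1), m i * ‖x (l+1) - x i‖^2
          + ⟪(2:ℝ) • ((∑ i ∈ Finset.range (l+1), m i) • x (l+1) - ∑ i ∈ Finset.range (l+1), m i • x i), y - x (l+1)⟫_ℝ
        + (∑ i ∈ Finset.range (l+1), m i) * ‖y - x (l+1)‖^2 := by
        rw [Finset.sum_smul, ← Finset.sum_sub_distrib, Finset.smul_sum, sum_inner, Finset.sum_mul, ← Finset.sum_add_distrib,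
          ← Finset.sum_add_distrib]
        apply Finset.sum_congr rfl
        intro i _
        have e : y - x i = (y - x (l+1)) + (x (l+1) - x i) := by abel
        rw [e, norm_add_sq_real, ← smul_sub, inner_smul_left, inner_smul_left, real_inner_comm (y - x (l+1))]
        simp only [conj_trivial]
        ring
      linarith
    have hlim : Tendsto (fun l => g (x (l+1)) + ⟪(2:ℝ) • ((∑ i ∈ Finset.range (l+1), m i) • x (l+1) - ∑ i ∈ Finset.range (l+1), m i • x i), y - x (l+1)⟫_ℝ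
        + (∑ i ∈ Finset.range (l+1), m i) * ‖y - x (l+1)‖^2 + m (l+1) * (1/4)^(l+1)) atTop
        (𝓝 (g x' + ⟪(2:ℝ) • (μ • x' - a), y - x'⟫_ℝ + μ * ‖y - x'‖^2 + 0)) := by
      have t1 : Tendsto (fun l => g (x (l+1))) atTop (𝓝 (g x')) := hg.continuousAt.tendsto.comp hx'
      have t2 : Tendsto (fun l => ∑ i ∈ Finset.range (l+1), m i) atTop (𝓝 μ) := hmt.comp (tendsto_add_atTop_nat 1)
      have t3 : Tendsto (fun l => ∑ i ∈ Finset.range (l+1), m i • x i) atTop (𝓝 a) := hat.comp (tendsto_add_atTop_nat 1)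
      have t4 : Tendsto (fun l => y - x (l+1)) atTop (𝓝 (y - x')) := tendsto_const_nhds.sub hx'
      have t5 : Tendsto (fun l => m (l+1) * (1/4)^(l+1)) atTop (𝓝 0) := by
        have : Tendsto (fun l => m (l+1)) atTop (𝓝 0) := hmsum.summable.tendsto_atTop_zero.comp (tendsto_add_atTop_nat 1)
        have h4 : Tendsto (fun l : ℕ => ((1/4 : ℝ))^(l+1)) atTop (𝓝 0) :=
          (tendsto_pow_atTop_nhds_zero_of_lt_one (by norm_num) (by norm_num)).comp (tendsto_add_atTop_nat 1)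
        simpa using this.mul h4
      exact ((t1.add (Filter.Tendsto.inner (((t2.smul hx').sub t3).const_smul (2:ℝ)) t4)).add (t2.mul (t4.norm.pow 2))).add t5
    have := ge_of_tendsto hlim (Eventually.of_forall hfin)
    linarith


/-- A symmetric form with `0 ≤ B h h ≤ N ‖h‖²` is bounded by `N`. -/
theorem form_bound (B : X →L[ℝ] X →L[ℝ] ℝ) (hs : ∀ u v, B u v = B v u) (N : ℝ)
    (h0 : ∀ h, 0 ≤ B h h) (hN : ∀ h, B h h ≤ N * ‖h‖^2) (u v : X) : |B u v| ≤ N * ‖u‖ * ‖v‖ := by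
  have hNn : ∀ h : X, 0 ≤ N * ‖h‖^2 := fun h => le_trans (h0 h) (hN h)
  -- for all s > 0 : 2|B u v| ≤ N (s²‖u‖² + ‖v‖²/s²)
  have key : ∀ s : ℝ, 0 < s → 2 * |B u v| ≤ N * (s^2 * ‖u‖^2 + (s⁻¹)^2 * ‖v‖^2) := by
    intro s hs0
    have e1 := h0 (s • u + s⁻¹ • v)
    have e2 := h0 (s • u - s⁻¹ • v)
    simp only [map_add, map_sub, map_smul, ContinuousLinearMap.add_apply, ContinuousLinearMap.sub_apply,
      ContinuousLinearMap.smul_apply, smul_eq_mul] at e1 e2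
    rw [hs v u] at e1 e2
    have e3 := hN u
    have e4 := hN v
    have e5 : s * s⁻¹ = 1 := mul_inv_cancel₀ hs0.ne'
    have a1 : s * (s * B u u) ≤ s^2 * (N * ‖u‖^2) := by nlinarith [sq_nonneg s]
    have a2 : s⁻¹ * (s⁻¹ * B v v) ≤ (s⁻¹)^2 * (N * ‖v‖^2) := by nlinarith [sq_nonneg s⁻¹]
    have a3 : s * (s⁻¹ * B u v) = B u v := by rw [← mul_assoc, e5, one_mul]
    have a4 : s⁻¹ * (s * B u v) = B u v := by rw [← mul_assoc, mul_comm s⁻¹ s, e5, one_mul]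
    have a5 : s * (s⁻¹ * B v u) = B v u := by rw [← mul_assoc, e5, one_mul]
    rw [show (2:ℝ) * |B u v| = |2 * B u v| by rw [abs_mul]; norm_num]
    rw [abs_le]
    constructor <;> nlinarith
  by_cases hu : u = 0
  · simp [hu]
  by_cases hv : v = 0
  · simp [hv]
  have hun : 0 < ‖u‖ := norm_pos_iff.mpr hu
  have hvn : 0 < ‖v‖ := norm_pos_iff.mpr hv
  have := key (Real.sqrt (‖v‖ / ‖u‖)) (Real.sqrt_pos.mpr (by positivity))
  rw [inv_pow, Real.sq_sqrt (by positivity)] at this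
  have e : N * (‖v‖ / ‖u‖ * ‖u‖^2 + (‖v‖ / ‖u‖)⁻¹ * ‖v‖^2) = 2 * (N * ‖u‖ * ‖v‖) := by
    field_simp
    ring
  linarith

/-- A quadratic upper bound near `x` makes `p` a subgradient of the convex function `f`. -/
theorem sub_of_up (f : X → ℝ) (hf : ConvexOn ℝ univ f) (x p : X) (N τ : ℝ) (hτ : 0 < τ)
    (up : ∀ y, ‖y - x‖ ≤ τ → f y ≤ f x + ⟪p, y - x⟫_ℝ + N * ‖y - x‖^2) (y : X) :
    f x + ⟪p, y - x⟫_ℝ ≤ f y := by
  set u := y - x with hu
  have key : ∀ s : ℝ, 0 < s → s * ‖u‖ ≤ τ → f x + ⟪p, u⟫_ℝ ≤ f y + s * (N * ‖u‖^2) := by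
    intro s hs hsτ
    have h1 := up (x - s • u) (by simpa [norm_smul, abs_of_pos hs] using hsτ)
    have h2 := hf.2 (mem_univ (x - s • u)) (mem_univ y) (show 0 ≤ 1/(1+s) by positivity)
      (show 0 ≤ s/(1+s) by positivity) (by field_simp)
    have h3 : (1/(1+s)) • (x - s • u) + (s/(1+s)) • y = x := by
      have : y = x + u := by simp [hu]
      rw [this]
      have e1 : (1/(1+s)) • (x - s • u) + (s/(1+s)) • (x + u) = ((1/(1+s)) * (1 + s)) • x := by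
        module
      rw [e1, one_div, inv_mul_cancel₀ (by positivity), one_smul]
    rw [h3] at h2
    simp only [smul_eq_mul] at h2
    have h4 : x - s • u - x = -(s • u) := by abel
    rw [h4, inner_neg_right, inner_smul_right, norm_neg, norm_smul, Real.norm_of_nonneg hs.le] at h1
    have h5 : (1 + s) * f x ≤ f (x - s • u) + s * f y := by
      have : (1+s) * f x ≤ (1+s) * (1/(1+s) * f (x - s • u) + s/(1+s) * f y) :=
        mul_le_mul_of_nonneg_left h2 (by positivity)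
      calc (1+s) * f x ≤ (1+s) * (1/(1+s) * f (x - s • u) + s/(1+s) * f y) := this
        _ = _ := by field_simp
    have h6 : s * (f x + ⟪p, u⟫_ℝ) ≤ s * (f y + s * (N * ‖u‖^2)) := by nlinarith
    exact le_of_mul_le_mul_left h6 hs
  have hlim : Tendsto (fun s : ℝ => f y + s * (N * ‖u‖^2)) (𝓝[>] 0) (𝓝 (f y + 0 * (N * ‖u‖^2))) := by
    apply Tendsto.mono_left _ nhdsWithin_le_nhds
    exact tendsto_const_nhds.add (tendsto_id.mul_const _)
  have hev : ∀ᶠ s : ℝ in 𝓝[>] 0, f x + ⟪p, u⟫_ℝ ≤ f y + s * (N * ‖u‖^2) := by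
    have h1 : ∀ᶠ s : ℝ in 𝓝[>] 0, s * ‖u‖ ≤ τ := by
      have : Tendsto (fun s : ℝ => s * ‖u‖) (𝓝[>] 0) (𝓝 (0 * ‖u‖)) :=
        Tendsto.mono_left (tendsto_id.mul_const _) nhdsWithin_le_nhds
      rw [zero_mul] at this
      exact this.eventually_le_const hτ
    filter_upwards [h1, self_mem_nhdsWithin] with s hs1 hs2
    exact key s hs2 hs1
  have := ge_of_tendsto hlim hev
  linarith

/-- Lipschitz estimate for subgradients. -/
theorem grad_lip (f : X → ℝ) (a b p p' : X) (N T s : ℝ)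
    (up : ∀ y, ‖y - a‖ ≤ T → f y ≤ f a + ⟪p, y - a⟫_ℝ + N * ‖y - a‖^2)
    (hp : ∀ y, f a + ⟪p, y - a⟫_ℝ ≤ f y) (hp' : ∀ y, f b + ⟪p', y - b⟫_ℝ ≤ f y)
    (hN : 0 ≤ N) (hs : 0 < s) (hsT : 2 * s ≤ T) (hab : ‖b - a‖ ≤ s) :
    ‖p' - p‖ ≤ 4 * N * s := by
  by_cases h0 : p' - p = 0
  · rw [h0, norm_zero]; positivity
  have hn : 0 < ‖p' - p‖ := norm_pos_iff.mpr h0
  set u : X := (s / ‖p' - p‖) • (p' - p) with hu
  have hun : ‖u‖ = s := by
    rw [hu, norm_smul, Real.norm_of_nonneg (by positivity)]; field_simp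
  have hub : ‖(b + u) - a‖ ≤ 2 * s := by
    calc ‖(b + u) - a‖ = ‖(b - a) + u‖ := by congr 1; abel
      _ ≤ ‖b - a‖ + ‖u‖ := norm_add_le _ _
      _ ≤ 2 * s := by linarith
  have h1 := up (b + u) (by linarith)
  have h2 := hp' (b + u)
  have h3 := hp b
  have e1 : b + u - b = u := by abel
  have e2 : b + u - a = (b - a) + u := by abel
  rw [e1] at h2
  have e3 : ⟪p, b + u - a⟫_ℝ = ⟪p, b - a⟫_ℝ + ⟪p, u⟫_ℝ := by rw [e2, inner_add_right]
  rw [e3] at h1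
  have h4 : ⟪p' - p, u⟫_ℝ ≤ N * (2 * s)^2 := by
    rw [inner_sub_left]
    have : N * ‖b + u - a‖^2 ≤ N * (2*s)^2 := by gcongr
    linarith
  have h5 : ⟪p' - p, u⟫_ℝ = s * ‖p' - p‖ := by
    rw [hu, inner_smul_right, real_inner_self_eq_norm_sq]
    field_simp
  rw [h5] at h4
  have : s * ‖p' - p‖ ≤ s * (4 * N * s) := by nlinarith
  exact le_of_mul_le_mul_left this hs

/-- Transfer of a quadratic upper bound from `a` to a nearby point `b`. -/
theorem transfer (f : X → ℝ) (a b p p' y : X) (C : X →L[ℝ] X →L[ℝ] ℝ) (hC : ∀ u v, C u v = C v u)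
    (M M' δ s : ℝ) (hM : ∀ u v, |C u v| ≤ M * ‖u‖ * ‖v‖) (hδ : 0 ≤ δ) (hδ1 : δ ≤ 1) (hs : 0 < s)
    (hM0 : 0 ≤ M)  (hM' : 0 ≤ M')
    (hy : f y ≤ f a + ⟪p, y - a⟫_ℝ + C (y - a) (y - a))
    (hp : f a + ⟪p, b - a⟫_ℝ ≤ f b) (hpp : ‖p' - p‖ ≤ M' * (δ * s))
    (hys : s ≤ ‖y - b‖) (hab : ‖b - a‖ ≤ δ * s) :
    f y ≤ f b + ⟪p', y - b⟫_ℝ + C (y - b) (y - b) + δ * (M' + 3 * M) * ‖y - b‖^2 := by
  set u := y - b with hu
  set z := b - a with hz
  have e : y - a = u + z := by simp [hu, hz]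
  rw [e] at hy
  have e1 : C (u + z) (u + z) = C u u + 2 * C u z + C z z := by
    simp only [map_add, ContinuousLinearMap.add_apply, hC z u]; ring
  have e2 : ⟪p, u + z⟫_ℝ = ⟪p, u⟫_ℝ + ⟪p, z⟫_ℝ := inner_add_right _ _ _
  rw [e1, e2] at hy
  have h1 : ⟪p, u⟫_ℝ = ⟪p', u⟫_ℝ - ⟪p' - p, u⟫_ℝ := by rw [inner_sub_left]; ring
  have h2 : |⟪p' - p, u⟫_ℝ| ≤ ‖p' - p‖ * ‖u‖ := abs_real_inner_le_norm _ _
  have h3 : ‖z‖ ≤ δ * ‖u‖ := le_trans hab (mul_le_mul_of_nonneg_left hys hδ)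
  have h4 := hM u z
  have h5 := hM z z
  have hun : 0 ≤ ‖u‖ := norm_nonneg _
  have hzn : 0 ≤ ‖z‖ := norm_nonneg _
  have h6 : ‖p' - p‖ * ‖u‖ ≤ δ * M' * ‖u‖^2 := by
    have : ‖p' - p‖ ≤ M' * (δ * ‖u‖) := le_trans hpp (by gcongr)
    nlinarith
  have h7 : M * ‖u‖ * ‖z‖ ≤ δ * M * ‖u‖^2 := by
    have : M * ‖u‖ * ‖z‖ ≤ M * ‖u‖ * (δ * ‖u‖) := by gcongr
    nlinarith
  have h8 : M * ‖z‖ * ‖z‖ ≤ δ * M * ‖u‖^2 := by
    have a1 : M * ‖z‖ * ‖z‖ ≤ M * (δ * ‖u‖) * (δ * ‖u‖) := by gcongr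
    have a2 : M * (δ * ‖u‖) * (δ * ‖u‖) = δ * (δ * (M * ‖u‖^2)) := by ring
    have a3 : δ * (M * ‖u‖^2) ≤ 1 * (M * ‖u‖^2) := by gcongr
    have a4 : δ * (δ * (M * ‖u‖^2)) ≤ δ * (1 * (M * ‖u‖^2)) := by gcongr
    nlinarith
  have h9 := abs_le.mp h2
  have h10 := abs_le.mp h4
  have h11 := abs_le.mp h5
  nlinarith

end Pool.Agent.Helper22.SO
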