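import Pool.Agent.Helper22.A1

set_option autoImplicit false
set_option maxHeartbeats 4000000
open scoped InnerProductSpace Topology
open Filter Set

namespace Pool.Agent.Helper22.SO

variable {X : Type*} [NormedAddCommGroup X] [InnerProductSpace ℝ X]

theorem exp_lower (σ : ℝ) (h : |σ| ≤ 1) : 1 + σ + σ^2/4 ≤ Real.exp σ := by
  have h1 := Real.exp_bound h (n := 3) (by norm_num)
  simp only [Finset.sum_range_succ, Finset.sum_range_zero, pow_zero, pow_one, Nat.factorial] at h1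
  norm_num at h1
  have h2 := (abs_le.mp h1).1
  have h3 : |σ|^3 ≤ σ^2 := by
    have : |σ|^3 = |σ|^2 * |σ| := by ring
    rw [this, sq_abs]
    nlinarith [sq_nonneg σ]
  nlinarith

theorem barrier [CompleteSpace X] (N ν : ℝ) (hN : 0 < N) (hν : 0 < ν) (hνN : ν ≤ N) :
    ∃ Γ : ℝ, 0 < Γ ∧ ∀ K : ℝ, 0 < K → ∃ m₀ : ℝ, 0 < m₀ ∧
      ∀ (F : X → ℝ) (C : X →L[ℝ] X →L[ℝ] ℝ) (D : Set X) (e : X) (μ : ℝ),
      ConvexOn ℝ univ F → Continuous F → (∀ y, 0 ≤ F y) → F 0 = 0 → (∀ u v, C u v = C v u) →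
      (∀ h, 0 ≤ C h h) → (∀ h, C h h ≤ N * ‖h‖^2) →
      IsClosed D → (∀ y, ‖y‖ ≤ 3 → y ∈ D) → (∀ y ∈ D, F y ≤ C y y) → ‖e‖ = 1 → F e ≤ C e e - ν → 0 < μ →
      ∃ (x' v' : X) (M : ℝ) (ℓ : X →L[ℝ] ℝ), ‖x'‖ ≤ 2 ∧ m₀ ≤ M ∧ K * M ≤ (ℓ e)^2 ∧
        (∀ h, |ℓ h| ≤ Γ * |ℓ e| * ‖h‖) ∧
        (∀ y ∈ D, F y ≤ F x' + ⟪v', y - x'⟫_ℝ + C (y - x') (y - x') + (μ + M) * ‖y - x'‖^2) ∧
        ∃ τ > 0, ∀ y, ‖y - x'‖ ≤ τ → F y ≤ F x' + ⟪v', y - x'⟫_ℝ + C (y - x') (y - x')
          + (2 * μ + M) * ‖y - x'‖^2 - (ℓ (y - x'))^2 := by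
  set r₀ : ℝ := ν / (14 * N) with hr₀
  have hr₀pos : 0 < r₀ := by positivity
  have hr₀le : r₀ ≤ 1/14 := by
    rw [hr₀, div_le_iff₀ (by positivity)]; linarith
  set c : ℝ := 4 / r₀^2 with hc
  have hcpos : 0 < c := by positivity
  have hc1 : 1 ≤ c := by
    rw [hc, le_div_iff₀ (by positivity)]; nlinarith
  refine ⟨4 * c / r₀, by positivity, ?_⟩
  intro K hK
  set θ : ℝ := ν / 2 with hθ
  have hθpos : 0 < θ := by positivity
  set α : ℝ := 3 * K * c / r₀^2 with hα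
  have hαpos : 0 < α := by positivity
  refine ⟨θ * α * c * Real.exp (-α), by positivity, ?_⟩
  intro F C D e μ hFc hFcont hF0 hFz hCs hC0 hCN hD hD3 hFC he hFe hμ
  have hCb : ∀ u v, |C u v| ≤ N * ‖u‖ * ‖v‖ := form_bound C hCs N hC0 hCN
  -- the anisotropic form
  set R : X → X → ℝ := fun u h => c * ⟪u, h⟫_ℝ - (c - 1) * (⟪u, e⟫_ℝ * ⟪h, e⟫_ℝ) with hR
  have hRadd : ∀ u h, R (u + h) (u + h) = R u u + 2 * R u h + R h h := by
    intro u h
    simp only [hR, inner_add_left, inner_add_right, real_inner_comm u h]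
    ring
  have hie : ∀ u : X, ⟪u, e⟫_ℝ^2 ≤ ‖u‖^2 := by
    intro u
    have h1 := abs_real_inner_le_norm u e
    rw [he, mul_one] at h1
    have := sq_le_sq' (by linarith [abs_nonneg ⟪u, e⟫_ℝ, norm_nonneg u]) h1
    rwa [sq_abs] at this
  have hie' : ∀ u : X, |⟪u, e⟫_ℝ| ≤ ‖u‖ := by
    intro u
    have h1 := abs_real_inner_le_norm u e
    rwa [he, mul_one] at h1
  have hRlow : ∀ u, ‖u‖^2 ≤ R u u := by
    intro u
    simp only [hR, real_inner_self_eq_norm_sq]
    nlinarith [hie u]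
  have hRup : ∀ u, R u u ≤ c * ‖u‖^2 := by
    intro u
    simp only [hR, real_inner_self_eq_norm_sq]
    nlinarith [sq_nonneg ⟪u, e⟫_ℝ]
  have hRabs : ∀ u h, |R u h| ≤ 2 * c * ‖u‖ * ‖h‖ := by
    intro u h
    have h1 := abs_real_inner_le_norm u h
    have h2 := hie' u
    have h3 := hie' h
    have h4 : |⟪u, e⟫_ℝ * ⟪h, e⟫_ℝ| ≤ ‖u‖ * ‖h‖ := by
      rw [abs_mul]; gcongr
    calc |R u h| ≤ |c * ⟪u, h⟫_ℝ| + |(c - 1) * (⟪u, e⟫_ℝ * ⟪h, e⟫_ℝ)| := abs_sub _ _
      _ ≤ c * (‖u‖ * ‖h‖) + (c - 1) * (‖u‖ * ‖h‖) := by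
        rw [abs_mul, abs_mul, abs_of_pos hcpos, abs_of_nonneg (by linarith : 0 ≤ c - 1)]
        gcongr
      _ ≤ 2 * c * ‖u‖ * ‖h‖ := by nlinarith [mul_nonneg (norm_nonneg u) (norm_nonneg h)]
  have hee : ⟪e, e⟫_ℝ = 1 := by rw [real_inner_self_eq_norm_sq, he]; norm_num
  have hRe : ∀ u, R u e = ⟪u, e⟫_ℝ := by
    intro u
    simp only [hR, hee]; ring
  -- the perturbed function
  set g : X → ℝ := fun y => F y - C y y + θ * Real.exp (-α * R (y - e) (y - e)) with hg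
  have hgcont : Continuous g := by
    simp only [hg, hR]
    fun_prop
  have hgM : ∀ y ∈ D, g y ≤ θ := by
    intro y hy
    have h1 := hFC y hy
    have h2 : Real.exp (-α * R (y - e) (y - e)) ≤ 1 := by
      apply Real.exp_le_one_iff.mpr
      have := hRlow (y - e)
      nlinarith [sq_nonneg ‖y - e‖]
    simp only [hg]
    nlinarith
  have h0D : (0 : X) ∈ D := hD3 0 (by simp)
  obtain ⟨x', hx'D, v, hgx', hgy⟩ := bp D hD g hgcont θ hgM 0 h0D μ hμ
  have hg0 : g 0 = θ * Real.exp (-α) := by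
    simp only [hg, hFz, map_zero, zero_sub]
    have : R (-e) (-e) = 1 := by
      simp only [hR, inner_neg_left, inner_neg_right, hee]; ring
    rw [this]; simp
  rw [hg0] at hgx'
  set u : X := x' - e with hu
  set E : ℝ := Real.exp (-α * R u u) with hE
  have hEpos : 0 < E := Real.exp_pos _
  have hEle1 : E ≤ 1 := by
    apply Real.exp_le_one_iff.mpr
    have := hRlow u
    nlinarith [sq_nonneg ‖u‖]
  have hgx : g x' = F x' - C x' x' + θ * E := rfl
  have hElow : Real.exp (-α) ≤ E := by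
    have h1 := hFC x' hx'D
    rw [hgx] at hgx'
    have : θ * Real.exp (-α) ≤ θ * E := by linarith
    exact le_of_mul_le_mul_left this hθpos
  have hRu1 : R u u ≤ 1 := by
    have := Real.exp_le_exp.mp hElow
    have h2 : α * R u u ≤ α * 1 := by linarith
    exact le_of_mul_le_mul_left h2 hαpos
  have hun1 : ‖u‖ ≤ 1 := by
    have h1 := le_trans (hRlow u) hRu1
    nlinarith [norm_nonneg u]
  have hx'2 : ‖x'‖ ≤ 2 := by
    have : x' = u + e := by simp [hu]
    rw [this]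
    linarith [norm_add_le u e]
  -- u is far from 0
  have hur₀ : r₀ < ‖u‖ := by
    by_contra hcon
    push Not at hcon
    have hFx : F x' ≤ F e + 4 * N * ‖u‖ := by
      by_cases hu0 : u = 0
      · have : x' = e := by rw [hu] at hu0; exact sub_eq_zero.mp hu0
        rw [hu0, this]; simp
      · have hunp : 0 < ‖u‖ := norm_pos_iff.mpr hu0
        set w : X := e + ‖u‖⁻¹ • u with hw
        have hwn : ‖w‖ ≤ 2 := by
          have h1 : ‖‖u‖⁻¹ • u‖ = 1 := by
            rw [norm_smul, norm_inv, norm_norm, inv_mul_cancel₀ hunp.ne']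
          linarith [norm_add_le e (‖u‖⁻¹ • u)]
        have h1 := hFc.2 (mem_univ e) (mem_univ w) (show 0 ≤ 1 - ‖u‖ by linarith) hunp.le (by ring)
        have h2 : (1 - ‖u‖) • e + ‖u‖ • w = x' := by
          have : ‖u‖ • ‖u‖⁻¹ • u = u := by rw [smul_smul, mul_inv_cancel₀ hunp.ne', one_smul]
          rw [hw, smul_add, this, sub_smul, one_smul, hu]; abel
        rw [h2] at h1
        simp only [smul_eq_mul] at h1
        have h3 := hFC w (hD3 w (by linarith))
        have h4 := hCN w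
        have h5 : ‖w‖^2 ≤ 4 := by nlinarith [norm_nonneg w]
        have h6 : F w ≤ 4 * N := by
          have : N * ‖w‖^2 ≤ N * 4 := mul_le_mul_of_nonneg_left h5 hN.le
          linarith
        have h7 := hF0 e
        have h8 : ‖u‖ * F w ≤ ‖u‖ * (4 * N) := mul_le_mul_of_nonneg_left h6 hunp.le
        have h9 : 0 ≤ ‖u‖ * F e := mul_nonneg hunp.le h7
        linarith
    have hCx : C e e - 2 * N * ‖u‖ ≤ C x' x' := by
      have hx'e : x' = e + u := by simp [hu]
      have h1 : C x' x' = C e e + 2 * C e u + C u u := by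
        rw [hx'e]
        simp only [map_add, add_apply, hCs u e]; ring
      have h2 := hCb e u
      rw [he, mul_one] at h2
      have h3 := abs_le.mp h2
      have h4 := hC0 u
      rw [h1]
      linarith
    have h1 : 0 < θ * Real.exp (-α) := by positivity
    have h2 : 6 * N * ‖u‖ ≤ 6 * N * r₀ := by gcongr
    have h3 : N * r₀ = ν / 14 := by rw [hr₀]; field_simp
    have h4 : θ * E ≤ θ * 1 := by gcongr
    rw [hgx] at hgx'
    linarith
  set s : ℝ := ⟪u, e⟫_ℝ with hs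
  have hs2 : 3/4 * r₀^2 ≤ s^2 := by
    have h1 : R u u = c * ‖u‖^2 - (c-1) * s^2 := by
      simp only [hR, real_inner_self_eq_norm_sq]; ring
    have h2 : c * ‖u‖^2 - c * s^2 ≤ 1 := by linarith [sq_nonneg s]
    have h3 : r₀^2 ≤ ‖u‖^2 := by
      have := hur₀.le
      gcongr
    have h4 : c * (r₀^2 - s^2) ≤ 1 := by
      have := mul_le_mul_of_nonneg_left h3 hcpos.le
      linarith
    have h5 : c * (r₀^2/4) = 1 := by rw [hc]; field_simp
    have h6 : c * (r₀^2 - s^2) ≤ c * (r₀^2/4) := by linarith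
    have h7 := le_of_mul_le_mul_left h6 hcpos
    linarith
  have hsabs : r₀ / 2 ≤ |s| := by
    have h1 : (r₀/2)^2 ≤ |s|^2 := by rw [sq_abs]; nlinarith
    exact le_of_sq_le_sq h1 (abs_nonneg _)
  -- representing vectors
  set ρ : X := c • u - ((c - 1) * s) • e with hρ
  have hρR : ∀ h, ⟪ρ, h⟫_ℝ = R u h := by
    intro h
    simp only [hρ, hR, inner_sub_left, inner_smul_left, conj_trivial, real_inner_comm h e]
    ring
  set q : X := (InnerProductSpace.toDual ℝ X).symm (C x') with hq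
  have hqC : ∀ h, ⟪q, h⟫_ℝ = C x' h := by
    intro h
    simp only [hq, InnerProductSpace.toDual_symm_apply]
  set M : ℝ := θ * E * α * c with hM
  have hMpos : 0 < M := by positivity
  set v' : X := v + (2:ℝ) • q + (2 * θ * E * α) • ρ with hv'
  have hv'in : ∀ h, ⟪v', h⟫_ℝ = ⟪v, h⟫_ℝ + 2 * C x' h + 2 * θ * E * α * R u h := by
    intro h
    simp only [hv', inner_add_left, inner_smul_left, conj_trivial, hqC, hρR]
  -- basic estimate
  have hbasic : ∀ y ∈ D, F y ≤ F x' + ⟪v, y - x'⟫_ℝ + μ * ‖y - x'‖^2 + 2 * C x' (y - x') +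
      C (y - x') (y - x') + θ * (E - E * Real.exp (-(2 * α * R u (y - x')) - α * R (y - x') (y - x'))) := by
    intro y hy
    have h1 := hgy y hy
    set h : X := y - x' with hh
    have hyx : y = x' + h := by simp [hh]
    have h2 : C y y = C x' x' + 2 * C x' h + C h h := by
      rw [hyx]
      simp only [map_add, add_apply, hCs h x']; ring
    have h3 : R (y - e) (y - e) = R u u + 2 * R u h + R h h := by
      have : y - e = u + h := by rw [hyx, hu]; abel
      rw [this, hRadd]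
    have h4 : Real.exp (-α * R (y - e) (y - e)) = E * Real.exp (-(2 * α * R u h) - α * R h h) := by
      rw [h3, hE, ← Real.exp_add]; congr 1; ring
    rw [hgx] at h1
    simp only [hg] at h1
    rw [h2, h4] at h1
    linarith
  set ℓ : X →L[ℝ] ℝ := (Real.sqrt (θ * E / 2) * α) • (innerSL ℝ ρ) with hℓ
  have hℓapp : ∀ h, ℓ h = Real.sqrt (θ * E / 2) * α * R u h := by
    intro h
    simp only [hℓ, smul_apply, innerSL_apply_apply, smul_eq_mul, hρR]
  have hsq : Real.sqrt (θ * E / 2) ^ 2 = θ * E / 2 := Real.sq_sqrt (by positivity)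
  have hℓsq : ∀ h, (ℓ h)^2 = θ * E / 2 * α^2 * (R u h)^2 := by
    intro h
    rw [hℓapp, mul_pow, mul_pow, hsq]
  refine ⟨x', v', M, ℓ, hx'2, ?_, ?_, ?_, ?_, ?_⟩
  · -- m₀ ≤ M
    have : θ * α * c * Real.exp (-α) ≤ θ * α * c * E := by gcongr
    calc θ * α * c * Real.exp (-α) ≤ θ * α * c * E := this
      _ = M := by rw [hM]; ring
  · -- K M ≤ ℓ(e)^2
    rw [hℓsq, hRe, hM]
    have h1 : K * c ≤ α * s^2 / 2 := by
      have : K * c = α * (r₀^2/3) := by rw [hα]; field_simp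
      rw [this]
      nlinarith
    have h2 : 0 < θ * E * α := by positivity
    calc K * (θ * E * α * c) = (θ * E * α) * (K * c) := by ring
      _ ≤ (θ * E * α) * (α * s^2 / 2) := by gcongr
      _ = θ * E / 2 * α^2 * s^2 := by ring
  · -- norm bound of ℓ
    intro h
    rw [hℓapp, hℓapp, hRe, abs_mul _ (R u h), abs_mul _ (⟪u, e⟫_ℝ)]
    have h1 := hRabs u h
    have h2 : 2 * c * ‖u‖ * ‖h‖ ≤ 2 * c * 1 * ‖h‖ := by gcongr
    have h3 : 2 * c * 1 * ‖h‖ ≤ 4 * c / r₀ * |s| * ‖h‖ := by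
      have : 2 * c * 1 ≤ 4 * c / r₀ * |s| := by
        have : 4 * c / r₀ * (r₀/2) ≤ 4 * c / r₀ * |s| := by gcongr
        have e1 : 4 * c / r₀ * (r₀/2) = 2 * c * 1 := by field_simp; norm_num
        linarith
      gcongr
    have h4 : |R u h| ≤ 4 * c / r₀ * |s| * ‖h‖ := by linarith
    calc |Real.sqrt (θ * E / 2) * α| * |R u h| ≤ |Real.sqrt (θ * E / 2) * α| * (4 * c / r₀ * |s| * ‖h‖) := by gcongr
      _ = 4 * c / r₀ * (|Real.sqrt (θ * E / 2) * α| * |s|) * ‖h‖ := by ring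
  · -- global bound
    intro y hy
    have h1 := hbasic y hy
    rw [hv'in]
    set h : X := y - x'
    have h2 := Real.add_one_le_exp (-(2 * α * R u h) - α * R h h)
    have h3 : E * (-(2 * α * R u h) - α * R h h + 1) ≤ E * Real.exp (-(2 * α * R u h) - α * R h h) := by gcongr
    have h4 : θ * (E - E * Real.exp (-(2 * α * R u h) - α * R h h)) ≤ θ * (E * (2 * α * R u h + α * R h h)) := by
      apply mul_le_mul_of_nonneg_left _ hθpos.le
      linarith
    have h5 : θ * E * α * R h h ≤ θ * E * α * (c * ‖h‖^2) := by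
      have := hRup h
      gcongr
    rw [hM]
    linarith
  · -- local bound
    set τ₁ : ℝ := min 1 (min (1 / (5 * α * c)) (4 * μ / (θ * α^2 * c^2))) with hτ₁
    refine ⟨τ₁, by positivity, ?_⟩
    intro y hy
    have hyD : y ∈ D := by
      apply hD3
      have : y = x' + (y - x') := by abel
      rw [this]
      have h1 : τ₁ ≤ 1 := min_le_left _ _
      linarith [norm_add_le x' (y - x')]
    have h1 := hbasic y hyD
    rw [hv'in, hℓsq]
    set h : X := y - x'
    have hn1 : ‖h‖ ≤ 1 := le_trans hy (min_le_left _ _)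
    have hn2 : ‖h‖ ≤ 1 / (5 * α * c) := le_trans hy (le_trans (min_le_right _ _) (min_le_left _ _))
    have hn3 : ‖h‖ ≤ 4 * μ / (θ * α^2 * c^2) := le_trans hy (le_trans (min_le_right _ _) (min_le_right _ _))
    have hhn : 0 ≤ ‖h‖ := norm_nonneg _
    set σ : ℝ := -(2 * α * R u h) - α * R h h with hσ
    have hRh0 : 0 ≤ R h h := le_trans (by positivity) (hRlow h)
    have hσ1 : |σ| ≤ 1 := by
      have a1 : |σ| ≤ 2 * α * |R u h| + α * R h h := by
        rw [hσ]
        calc |-(2 * α * R u h) - α * R h h| ≤ |-(2 * α * R u h)| + |α * R h h| := abs_sub _ _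
          _ = _ := by rw [abs_neg, abs_mul, abs_mul, abs_mul, abs_of_pos hαpos, abs_of_nonneg hRh0]; norm_num
      have a2 := hRabs u h
      have a3 : 2 * c * ‖u‖ * ‖h‖ ≤ 2 * c * 1 * ‖h‖ := by gcongr
      have a4 := hRup h
      have a5 : c * ‖h‖^2 ≤ c * ‖h‖ := by
        apply mul_le_mul_of_nonneg_left _ hcpos.le
        rw [sq]
        exact mul_le_of_le_one_left hhn hn1
      have a6 : 2 * α * |R u h| ≤ 2 * α * (2 * c * 1 * ‖h‖) := by
        have : |R u h| ≤ 2 * c * 1 * ‖h‖ := by linarith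
        gcongr
      have a7 : α * R h h ≤ α * (c * ‖h‖) := by
        have : R h h ≤ c * ‖h‖ := by linarith
        gcongr
      have a8 : 5 * α * c * ‖h‖ ≤ 1 := by
        rw [le_div_iff₀ (by positivity)] at hn2
        linarith
      linarith
    have h2 := exp_lower σ hσ1
    have h3 : 2 * α^2 * (R u h)^2 - α^2 * (R h h)^2 ≤ σ^2 := by
      have h31 : σ^2 - (2 * α^2 * (R u h)^2 - α^2 * (R h h)^2) = 2 * (α * R u h + α * R h h)^2 := by
        rw [hσ]; ring
      have h32 := sq_nonneg (α * R u h + α * R h h)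
      linarith
    have h4 : E * (1 + σ + (2 * α^2 * (R u h)^2 - α^2 * (R h h)^2)/4) ≤ E * Real.exp σ := by
      apply mul_le_mul_of_nonneg_left _ hEpos.le
      linarith
    have h5 : θ * (E - E * Real.exp σ) ≤ θ * (E - E * (1 + σ + (2 * α^2 * (R u h)^2 - α^2 * (R h h)^2)/4)) := by
      apply mul_le_mul_of_nonneg_left _ hθpos.le
      linarith
    have h6 : θ * E * α * R h h ≤ θ * E * α * (c * ‖h‖^2) := by
      have := hRup h
      gcongr
    have h7 : θ * E * α^2 * (R h h)^2 / 4 ≤ μ * ‖h‖^2 := by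
      have b1 : (R h h)^2 ≤ (c * ‖h‖^2)^2 := by
        have := hRup h
        gcongr
      have b2 : θ * E * α^2 * (R h h)^2 / 4 ≤ θ * 1 * α^2 * (c * ‖h‖^2)^2 / 4 := by gcongr
      have b3 : θ * α^2 * c^2 * ‖h‖ ≤ 4 * μ := by
        rw [le_div_iff₀ (by positivity)] at hn3
        linarith
      have b4 : θ * α^2 * c^2 * ‖h‖ * ‖h‖ ≤ 4 * μ := by
        have b5 : 0 ≤ θ * α^2 * c^2 * ‖h‖ := by positivity
        have b8 : θ * α^2 * c^2 * ‖h‖ * ‖h‖ ≤ θ * α^2 * c^2 * ‖h‖ * 1 :=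
          mul_le_mul_of_nonneg_left hn1 b5
        linarith
      have b6 : θ * 1 * α^2 * (c * ‖h‖^2)^2 / 4 = (θ * α^2 * c^2 * ‖h‖ * ‖h‖) / 4 * ‖h‖^2 := by ring
      have b7 : (θ * α^2 * c^2 * ‖h‖ * ‖h‖) / 4 * ‖h‖^2 ≤ (4 * μ) / 4 * ‖h‖^2 := by gcongr
      linarith
    have h8 : θ * (E - E * (1 + σ + (2 * α^2 * (R u h)^2 - α^2 * (R h h)^2)/4)) =
      2 * θ * E * α * R u h + θ * E * α * R h h - θ * E / 2 * α^2 * (R u h)^2 + θ * E * α^2 * (R h h)^2 / 4 := by
      rw [hσ]; ring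
    rw [hM]
    linarith

end Pool.Agent.Helper22.SO
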