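import Pool.Agent.Helper22.A1

set_option autoImplicit false
set_option maxHeartbeats 4000000
set_option linter.unusedSectionVars false
open scoped InnerProductSpace Topology
open Filter Set

namespace Pool.Agent.Helper22.SO

variable {X : Type*} [NormedAddCommGroup X] [InnerProductSpace ℝ X]

/-- The inner product as a continuous bilinear form. -/
noncomputable def ip (X : Type*) [NormedAddCommGroup X] [InnerProductSpace ℝ X] : X →L[ℝ] X →L[ℝ] ℝ :=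
  (innerSL ℝ : X →L[ℝ] X →L[ℝ] ℝ)

theorem ip_apply (u v : X) : ip X u v = ⟪u, v⟫_ℝ := rfl

theorem ip_self (u : X) : ip X u u = ‖u‖^2 := by rw [ip_apply, real_inner_self_eq_norm_sq]

/-- Weights. -/
noncomputable def wt (u : ℕ → X) (i : ℕ) : ℝ := (1/2)^(i+1) / (1 + ‖u i‖^2)

theorem wt_pos (u : ℕ → X) (i : ℕ) : 0 < wt u i := by unfold wt; positivity

theorem wt_mul_sq (u : ℕ → X) (i : ℕ) : wt u i * ‖u i‖^2 ≤ (1/2)^(i+1) := by
  unfold wt
  rw [div_mul_eq_mul_div, div_le_iff₀ (by positivity)]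
  have : (0:ℝ) < (1/2)^(i+1) := by positivity
  nlinarith [sq_nonneg ‖u i‖]

theorem summable_half : Summable (fun i : ℕ => ((1:ℝ)/2)^(i+1)) := by
  have := summable_geometric_two
  exact (summable_nat_add_iff 1).mpr this

theorem tsum_half : ∑' i : ℕ, ((1:ℝ)/2)^(i+1) = 1 := by
  have h1 := tsum_geometric_two
  have h2 := summable_geometric_two.sum_add_tsum_nat_add 1
  simp at h2
  have h3 : ∑' i : ℕ, ((1:ℝ)/2)^(i+1) = ∑' i : ℕ, ((2:ℝ)^(i+1))⁻¹ := by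
    congr 1; funext i; rw [one_div, inv_pow]
  rw [h3]
  simp only [one_div, inv_pow] at h1
  linarith

noncomputable def Wf (u : ℕ → X) (B : X →L[ℝ] X →L[ℝ] ℝ) : ℝ := ∑' i, wt u i * B (u i) (u i)

theorem Wf_summable (u : ℕ → X) (B : X →L[ℝ] X →L[ℝ] ℝ) :
    Summable (fun i => wt u i * B (u i) (u i)) := by
  apply Summable.of_norm_bounded (g := fun i => ‖B‖ * (1/2)^(i+1)) (summable_half.mul_left _)
  intro i
  rw [norm_mul, Real.norm_of_nonneg (wt_pos u i).le]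
  have h1 : ‖B (u i) (u i)‖ ≤ ‖B‖ * ‖u i‖ * ‖u i‖ := B.le_opNorm₂ _ _
  have h2 := wt_mul_sq u i
  have h3 := wt_pos u i
  calc wt u i * ‖B (u i) (u i)‖ ≤ wt u i * (‖B‖ * ‖u i‖ * ‖u i‖) := by gcongr
    _ = ‖B‖ * (wt u i * ‖u i‖^2) := by ring
    _ ≤ ‖B‖ * (1/2)^(i+1) := by gcongr

theorem Wf_nonneg (u : ℕ → X) (B : X →L[ℝ] X →L[ℝ] ℝ) (hB : ∀ h, 0 ≤ B h h) : 0 ≤ Wf u B :=
  tsum_nonneg (fun i => mul_nonneg (wt_pos u i).le (hB _))

theorem Wf_le (u : ℕ → X) (B C : X →L[ℝ] X →L[ℝ] ℝ) (m : ℝ) (hm : 0 ≤ m) (ℓ : X →L[ℝ] ℝ) (j : ℕ)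
    (h : ∀ h, B h h ≤ C h h + m * ‖h‖^2 - (ℓ h)^2) : Wf u B + wt u j * (ℓ (u j))^2 ≤ Wf u C + m := by
  have h1 : HasSum (fun i => if i = j then wt u j * (ℓ (u j))^2 else 0) (wt u j * (ℓ (u j))^2) :=
    hasSum_ite_eq j _
  have h2 : HasSum (fun i : ℕ => m * ((1:ℝ)/2)^(i+1)) (m * 1) := by
    have := summable_half.hasSum.mul_left m
    rwa [tsum_half] at this
  have h3 := (Wf_summable u B).hasSum.add h1
  have h4 := (Wf_summable u C).hasSum.add h2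
  rw [mul_one] at h4
  refine hasSum_le ?_ h3 h4
  intro i
  have hw := wt_pos u i
  have h5 := h (u i)
  have h6 := wt_mul_sq u i
  have h7 : m * (wt u i * ‖u i‖^2) ≤ m * (1/2)^(i+1) := by gcongr
  have h8 : wt u i * B (u i) (u i) ≤ wt u i * (C (u i) (u i) + m * ‖u i‖^2 - (ℓ (u i))^2) := by gcongr
  split_ifs with hij
  · subst hij; linarith
  · have : 0 ≤ wt u i * (ℓ (u i))^2 := by positivity
    linarith

/-- Second order superjets of `f` with scale. -/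
structure Jet (f : X → ℝ) where
  x : X
  p : X
  B : X →L[ℝ] X →L[ℝ] ℝ
  τ : ℝ
  τpos : 0 < τ
  symm : ∀ u v, B u v = B v u
  sub : ∀ y, f x + ⟪p, y - x⟫_ℝ ≤ f y
  up : ∀ y, ‖y - x‖ ≤ τ → f y ≤ f x + ⟪p, y - x⟫_ℝ + B (y - x) (y - x)

theorem Jet.nonneg {f : X → ℝ} (z : Jet f) (h : X) : 0 ≤ z.B h h := by
  by_cases hh : h = 0
  · simp [hh]
  have hn : 0 < ‖h‖ := norm_pos_iff.mpr hh
  set s : ℝ := z.τ / ‖h‖ with hs
  have hspos : 0 < s := div_pos z.τpos hn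
  have h1 := z.up (z.x + s • h) (by
    rw [add_sub_cancel_left, norm_smul, Real.norm_of_nonneg hspos.le, hs,
      div_mul_cancel₀ _ hn.ne'])
  have h2 := z.sub (z.x + s • h)
  have h3 : 0 ≤ z.B (s • h) (s • h) := by
    simp only [add_sub_cancel_left] at h1 h2; linarith
  simp only [map_smul, smul_apply, smul_eq_mul] at h3
  have h4 : 0 ≤ s^2 * z.B h h := by nlinarith
  exact nonneg_of_mul_nonneg_right h4 (by positivity)

def Bd {f : X → ℝ} (a z : Jet f) (l : ℝ) : Prop :=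
  (∀ y, ‖y - a.x‖ ≤ a.τ → f y ≤ f z.x + ⟪z.p, y - z.x⟫_ℝ + a.B (y - z.x) (y - z.x) + l * ‖y - z.x‖^2) ∧
  (∀ h, z.B h h ≤ a.B h h + l * ‖h‖^2)

theorem Bd.mono {f : X → ℝ} {a z : Jet f} {l l' : ℝ} (h : Bd a z l) (hl : l ≤ l') : Bd a z l' := by
  refine ⟨fun y hy => le_trans (h.1 y hy) ?_, fun y => le_trans (h.2 y) ?_⟩
  · gcongr
  · gcongr

theorem Bd.refl {f : X → ℝ} (a : Jet f) : Bd a a 0 :=
  ⟨fun y hy => by simpa using a.up y hy, fun h => by simp⟩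

/-- The main recursive construction. -/
theorem main_seq {f : X → ℝ} (u : ℕ → X) (z₀ : Jet f) (κ ε c : ℕ → ℝ) (hκ : ∀ k, 0 < κ k)
    (hε : ∀ k, 0 < ε k) (hc : ∀ k, 0 < c k) :
  ∃ (P : ℕ → Jet f → ℝ → Prop) (z : ℕ → Jet f) (v r : ℕ → ℝ),
    z 0 = z₀ ∧ v 0 = Wf u z₀.B ∧ (∀ a v, P 0 a v ↔ v = Wf u a.B) ∧
    (∀ k a v, P (k+1) a v ↔ ∃ v₀ l, 0 ≤ l ∧ P k a v₀ ∧ Bd (z k) a l ∧ v = v₀ + κ k * l) ∧
    (∀ k, P k (z k) (v k)) ∧ (∀ k, v (k+1) ≤ v k) ∧ (∀ k, 0 < r k) ∧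
    (∀ k, r k ≤ c k * min 1 (z k).τ)  ∧
    (∀ k x, ‖x - (z (k+1)).x‖ ≤ 2 * r (k+1) → ‖x - (z k).x‖ < r k) ∧
    (∀ k (a : Jet f) w, ‖a.x - (z k).x‖ < r k → P (k+1) a w → v (k+1) ≤ w + ε k) ∧
    (∀ k, r (k+1) ≤ r k) := by
  let S := {s : (Jet f → ℝ → Prop) × Jet f × ℝ × ℝ // s.1 s.2.1 s.2.2.1 ∧ 0 < s.2.2.2 ∧
    ∀ a w, s.1 a w → 0 ≤ w}
  let R : ℕ → S → S → Prop := fun k s s' =>
    (∀ a v, s'.1.1 a v ↔ ∃ v₀ l, 0 ≤ l ∧ s.1.1 a v₀ ∧ Bd s.1.2.1 a l ∧ v = v₀ + κ k * l) ∧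
    s'.1.2.2.1 ≤ s.1.2.2.1 ∧ s'.1.2.2.2 ≤ c (k+1) * min 1 (s'.1.2.1).τ ∧
    (∀ x, ‖x - (s'.1.2.1).x‖ ≤ 2 * s'.1.2.2.2 → ‖x - (s.1.2.1).x‖ < s.1.2.2.2) ∧
    (∀ (a : Jet f) w, ‖a.x - (s.1.2.1).x‖ < s.1.2.2.2 → s'.1.1 a w → s'.1.2.2.1 ≤ w + ε k) ∧
    s'.1.2.2.2 ≤ s.1.2.2.2
  have hstep : ∀ k s, ∃ s', R k s s' := by
    rintro k ⟨⟨P, z, v, r⟩, hP, hr, hnn⟩
    simp only at hP hr hnn
    set P' : Jet f → ℝ → Prop := fun a v => ∃ v₀ l, 0 ≤ l ∧ P a v₀ ∧ Bd z a l ∧ v = v₀ + κ k * l with hP'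
    have hP'nn : ∀ a w, P' a w → 0 ≤ w := by
      rintro a w ⟨v₀, l, hl, h1, -, rfl⟩
      have := hnn a v₀ h1
      have := hκ k
      positivity
    have hP'z : P' z v := ⟨v, 0, le_refl _, hP, Bd.refl z, by simp⟩
    obtain ⟨⟨z', v'⟩, hz', hle, hnear⟩ := near_min {q : Jet f × ℝ | ‖q.1.x - z.x‖ < r ∧ P' q.1 q.2}
      (fun q => q.2) 0 (fun q hq => hP'nn _ _ hq.2) (z, v) ⟨by simpa using hr, hP'z⟩ (ε k) (hε k)
    simp only [Set.mem_ofPred_eq] at hz' hle hnear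
    set r' : ℝ := min ((r - ‖z'.x - z.x‖)/4) (c (k+1) * min 1 z'.τ) with hr'
    have hd : 0 < r - ‖z'.x - z.x‖ := by linarith [hz'.1]
    have hr'pos : 0 < r' := by
      rw [hr']
      have := hc (k+1)
      have := z'.τpos
      positivity
    refine ⟨⟨⟨P', z', v', r'⟩, hz'.2, hr'pos, hP'nn⟩, fun a v => Iff.rfl, hle, min_le_right _ _, ?_, ?_, ?_⟩
    · intro x hx
      simp only at hx ⊢
      have h1 : r' ≤ (r - ‖z'.x - z.x‖)/4 := min_le_left _ _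
      have h2 : ‖x - z.x‖ ≤ ‖x - z'.x‖ + ‖z'.x - z.x‖ := by
        have : x - z.x = (x - z'.x) + (z'.x - z.x) := by abel
        rw [this]; exact norm_add_le _ _
      linarith
    · intro a w ha hw
      exact hnear (a, w) ⟨ha, hw⟩
    · have h1 : r' ≤ (r - ‖z'.x - z.x‖)/4 := min_le_left _ _
      have h2 := norm_nonneg (z'.x - z.x)
      simp only
      linarith
  have hr0 : 0 < c 0 * min 1 z₀.τ := by
    have := hc 0
    have := z₀.τpos
    positivity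
  obtain ⟨s, hs0, hs⟩ := dep_choice (⟨⟨fun a v => v = Wf u a.B, z₀, Wf u z₀.B, c 0 * min 1 z₀.τ⟩, rfl, hr0,
    fun a w hw => by rw [hw]; exact Wf_nonneg u a.B a.nonneg⟩ : S) R hstep
  refine ⟨fun k => (s k).1.1, fun k => (s k).1.2.1, fun k => (s k).1.2.2.1, fun k => (s k).1.2.2.2,
    ?_, ?_, ?_, fun k => (hs k).1, fun k => (s k).2.1, fun k => (hs k).2.1, fun k => (s k).2.2.1, ?_,
    fun k => (hs k).2.2.2.1, fun k => (hs k).2.2.2.2.1, fun k => (hs k).2.2.2.2.2⟩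
  · simp [hs0]
  · simp [hs0]
  · intro a v; simp [hs0]
  · intro k
    rcases k with _ | k
    · simp [hs0]
    · exact (hs k).2.2.1

/-- Existence of a jet. -/
theorem exists_jet [CompleteSpace X] (f : X → ℝ) (hf : ConvexOn ℝ univ f) (hcont : Continuous f) :
    Nonempty (Jet f) := by
  -- f bounded near 0
  have h1 : ∀ᶠ y in 𝓝 (0:X), |f y - f 0| < 1 := by
    have := hcont.tendsto 0
    rw [Metric.tendsto_nhds] at this
    have := this 1 one_pos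
    simpa [Real.dist_eq] using this
  obtain ⟨T, hT, hTb⟩ := Metric.eventually_nhds_iff_ball.mp h1
  set T' := T / 2 with hT'
  have hT'pos : 0 < T' := by positivity
  have hb : ∀ y ∈ Metric.closedBall (0:X) T', |f y - f 0| < 1 := by
    intro y hy
    apply hTb
    rw [mem_closedBall_zero_iff] at hy
    rw [mem_ball_zero_iff]
    linarith
  set lam : ℝ := 8 / T'^2 with hlam
  have hlampos : 0 < lam := by positivity
  obtain ⟨x', hx', v, h0, hv⟩ := bp (Metric.closedBall (0:X) T') Metric.isClosed_closedBall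
    (fun y => f y - lam * ‖y‖^2) (by fun_prop) (f 0 + 1)
    (fun y hy => by
      have := abs_lt.mp (hb y hy)
      have : 0 ≤ lam * ‖y‖^2 := by positivity
      linarith) 0 (by simp [hT'pos.le]) 1 one_pos
  simp only [norm_zero, ne_eq, OfNat.ofNat_ne_zero, not_false_eq_true, zero_pow, mul_zero, sub_zero] at h0
  have hx'n : ‖x'‖ ≤ T'/2 := by
    have h2 := (abs_lt.mp (hb x' hx')).2
    have h3 : lam * ‖x'‖^2 ≤ 1 := by linarith
    have h4 : ‖x'‖^2 ≤ (T'/2)^2 := by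
      rw [hlam, div_mul_eq_mul_div, div_le_iff₀ (by positivity)] at h3
      nlinarith [sq_nonneg T']
    exact le_of_sq_le_sq h4 (by positivity)
  have hup : ∀ y, ‖y - x'‖ ≤ T'/2 → f y ≤ f x' + ⟪v + (2 * lam) • x', y - x'⟫_ℝ + (lam + 1) * ‖y - x'‖^2 := by
    intro y hy
    have hyb : y ∈ Metric.closedBall (0:X) T' := by
      rw [mem_closedBall_zero_iff]
      have : y = x' + (y - x') := by abel
      rw [this]
      linarith [norm_add_le x' (y - x')]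
    have h2 := hv y hyb
    have h3 : ‖y‖^2 = ‖x'‖^2 + 2 * ⟪x', y - x'⟫_ℝ + ‖y - x'‖^2 := by
      have : y = x' + (y - x') := by abel
      conv_lhs => rw [this]
      rw [norm_add_sq_real]
    rw [inner_add_left, inner_smul_left]
    simp only [conj_trivial]
    rw [h3] at h2
    nlinarith
  exact ⟨{ x := x', p := v + (2 * lam) • x', B := (lam + 1) • ip X, τ := T'/2, τpos := by positivity,
           symm := fun u v => by
            simp only [smul_apply, ip_apply, real_inner_comm],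
           sub := sub_of_up f hf x' _ (lam + 1) (T'/2) (by positivity) hup,
           up := fun y hy => by
            have := hup y hy
            simp only [smul_apply, smul_eq_mul, ip_self]
            linarith }⟩

end Pool.Agent.Helper22.SO
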