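import Pool.Agent.Helper22.A2
import Pool.Agent.Helper22.A3

set_option autoImplicit false
set_option maxHeartbeats 4000000
set_option linter.unusedSectionVars false
open scoped InnerProductSpace Topology
open Filter Set

namespace Pool.Agent.Helper22.SO

variable {X : Type*} [NormedAddCommGroup X] [InnerProductSpace ℝ X]

theorem barrier' [CompleteSpace X] (N ν : ℝ) (hN : 0 < N) (hν : 0 < ν) (hνN : ν ≤ N) :
    ∃ Γ : ℝ, 0 < Γ ∧ ∀ K : ℝ, 0 < K → ∃ m₀ : ℝ, 0 < m₀ ∧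
      ∀ (f : X → ℝ) (C : X →L[ℝ] X →L[ℝ] ℝ) (D : Set X) (a p e : X) (t μ : ℝ),
      ConvexOn ℝ univ f → Continuous f → (∀ y, f a + ⟪p, y - a⟫_ℝ ≤ f y) → (∀ u v, C u v = C v u) →
      (∀ h, 0 ≤ C h h) → (∀ h, C h h ≤ N * ‖h‖^2) →
      IsClosed D → t ≠ 0 → (∀ y, ‖y - a‖ ≤ 3 * |t| → y ∈ D) →
      (∀ y ∈ D, f y ≤ f a + ⟪p, y - a⟫_ℝ + C (y - a) (y - a)) → ‖e‖ = 1 →
      f (a + t • e) ≤ f a + t * ⟪p, e⟫_ℝ + t^2 * (C e e - ν) → 0 < μ →
      ∃ (x' p' : X) (M : ℝ) (ℓ : X →L[ℝ] ℝ), ‖x' - a‖ ≤ 2 * |t| ∧ m₀ ≤ M ∧ K * M ≤ (ℓ e)^2 ∧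
        (∀ h, |ℓ h| ≤ Γ * |ℓ e| * ‖h‖) ∧
        (∀ y ∈ D, f y ≤ f x' + ⟪p', y - x'⟫_ℝ + C (y - x') (y - x') + (μ + M) * ‖y - x'‖^2) ∧
        ∃ τ > 0, ∀ y, ‖y - x'‖ ≤ τ → f y ≤ f x' + ⟪p', y - x'⟫_ℝ + C (y - x') (y - x')
          + (2 * μ + M) * ‖y - x'‖^2 - (ℓ (y - x'))^2 := by
  obtain ⟨Γ, hΓ, hb⟩ := barrier (X := X) N ν hN hν hνN
  refine ⟨Γ, hΓ, fun K hK => ?_⟩
  obtain ⟨m₀, hm₀, hb⟩ := hb K hK
  refine ⟨m₀, hm₀, ?_⟩
  intro f C D a p e t μ hf hcont hsub hCs hC0 hCN hD ht hD3 hDf he hfe hμ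
  have ht2 : 0 < t^2 := by positivity
  have htabs : 0 < |t| := abs_pos.mpr ht
  set F : X → ℝ := fun y => (t^2)⁻¹ * (f (a + t • y) - f a - t * ⟪p, y⟫_ℝ) with hF
  have hFt : ∀ y, t^2 * F y = f (a + t • y) - f a - t * ⟪p, y⟫_ℝ := by
    intro y
    simp only [hF]
    rw [← mul_assoc, mul_inv_cancel₀ ht2.ne', one_mul]
  have hFconv : ConvexOn ℝ univ F := by
    refine ⟨convex_univ, ?_⟩
    intro y _ z _ α β hα hβ hαβ
    have h1 := hf.2 (mem_univ (a + t • y)) (mem_univ (a + t • z)) hα hβ hαβ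
    have e1 : α • (a + t • y) + β • (a + t • z) = a + t • (α • y + β • z) := by
      have : a = (α + β) • a := by rw [hαβ, one_smul]
      conv_rhs => rw [this]
      module
    rw [e1] at h1
    simp only [smul_eq_mul] at h1 ⊢
    have h2 : t^2 * F (α • y + β • z) ≤ t^2 * (α * F y + β * F z) := by
      have e2 : t^2 * (α * F y + β * F z) = α * (t^2 * F y) + β * (t^2 * F z) := by ring
      rw [e2, hFt, hFt, hFt, inner_add_right, inner_smul_right, inner_smul_right]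
      have e3 : f a = α * f a + β * f a := by rw [← add_mul, hαβ, one_mul]
      nlinarith
    exact le_of_mul_le_mul_left h2 ht2
  have hFcont : Continuous F := by
    simp only [hF]; fun_prop
  have hF0 : ∀ y, 0 ≤ F y := by
    intro y
    have h1 := hsub (a + t • y)
    rw [add_sub_cancel_left, inner_smul_right] at h1
    have h2 := hFt y
    have h3 : 0 ≤ t^2 * F y := by linarith
    exact nonneg_of_mul_nonneg_right h3 ht2
  have hFz : F 0 = 0 := by simp [hF]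
  set D' : Set X := (fun y => a + t • y) ⁻¹' D with hD'
  have hD'c : IsClosed D' := hD.preimage (by fun_prop)
  have hD'3 : ∀ y, ‖y‖ ≤ 3 → y ∈ D' := by
    intro y hy
    apply hD3
    rw [add_sub_cancel_left, norm_smul, Real.norm_eq_abs, mul_comm]
    gcongr
  have hFC : ∀ y ∈ D', F y ≤ C y y := by
    intro y hy
    have h1 := hDf _ hy
    rw [add_sub_cancel_left, inner_smul_right] at h1
    simp only [map_smul, smul_apply, smul_eq_mul] at h1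
    have h2 := hFt y
    have h3 : t^2 * F y ≤ t^2 * C y y := by nlinarith
    exact le_of_mul_le_mul_left h3 ht2
  have hFe : F e ≤ C e e - ν := by
    have h2 := hFt e
    have h3 : t^2 * F e ≤ t^2 * (C e e - ν) := by linarith
    exact le_of_mul_le_mul_left h3 ht2
  obtain ⟨x', v', M, ℓ, hx'2, hM, hK', hΓ', hglob, τ, hτ, hloc⟩ :=
    hb F C D' e μ hFconv hFcont hF0 hFz hCs hC0 hCN hD'c hD'3 hFC he hFe hμ
  -- change of variables
  have hcv : ∀ Y : X, a + t • (t⁻¹ • (Y - a)) = Y := by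
    intro Y; rw [smul_smul, mul_inv_cancel₀ ht, one_smul]; abel
  have hkey : ∀ (Y : X) (m q : ℝ), (F (t⁻¹ • (Y - a)) ≤ F x' + ⟪v', t⁻¹ • (Y - a) - x'⟫_ℝ +
      C (t⁻¹ • (Y - a) - x') (t⁻¹ • (Y - a) - x') + m * ‖t⁻¹ • (Y - a) - x'‖^2 - q * (ℓ (t⁻¹ • (Y - a) - x'))^2) →
      f Y ≤ f (a + t • x') + ⟪p + t • v', Y - (a + t • x')⟫_ℝ + C (Y - (a + t • x')) (Y - (a + t • x'))
        + m * ‖Y - (a + t • x')‖^2 - q * (ℓ (Y - (a + t • x')))^2 := by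
    intro Y m q h
    set w : X := t⁻¹ • (Y - a) - x' with hw
    have hYw : Y - (a + t • x') = t • w := by
      rw [hw, smul_sub, smul_smul, mul_inv_cancel₀ ht, one_smul]; abel
    have h1 : t^2 * F (t⁻¹ • (Y - a)) ≤ t^2 * (F x' + ⟪v', w⟫_ℝ + C w w + m * ‖w‖^2 - q * (ℓ w)^2) := by gcongr
    have h2 := hFt (t⁻¹ • (Y - a))
    have h3 := hFt x'
    have h2' : t * ⟪p, t⁻¹ • (Y - a)⟫_ℝ = ⟪p, Y - a⟫_ℝ := by
      rw [inner_smul_right, ← mul_assoc, mul_inv_cancel₀ ht, one_mul]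
    rw [hcv, h2'] at h2
    rw [hYw]
    simp only [inner_add_left, inner_smul_left, inner_smul_right, map_smul, smul_apply, smul_eq_mul, conj_trivial,
      norm_smul, Real.norm_eq_abs]
    rw [mul_pow, sq_abs]
    have h4 : ⟪p, Y - a⟫_ℝ = t * ⟪p, x'⟫_ℝ + t * ⟪p, w⟫_ℝ := by
      have : Y - a = t • x' + t • w := by rw [← hYw]; abel
      rw [this, inner_add_right, inner_smul_right, inner_smul_right]
    nlinarith
  refine ⟨a + t • x', p + t • v', M, ℓ, ?_, hM, hK', hΓ', ?_, |t| * τ, by positivity, ?_⟩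
  · rw [add_sub_cancel_left, norm_smul, Real.norm_eq_abs, mul_comm]
    gcongr
  · intro Y hY
    have := hkey Y (μ + M) 0 (by
      have := hglob (t⁻¹ • (Y - a)) (by
        simp only [hD', mem_preimage]; rw [hcv]; exact hY)
      linarith)
    linarith
  · intro Y hY
    have := hkey Y (2 * μ + M) 1 (by
      have := hloc (t⁻¹ • (Y - a)) (by
        have e1 : t⁻¹ • (Y - a) - x' = t⁻¹ • (Y - (a + t • x')) := by
          rw [← sub_sub, smul_sub t⁻¹ (Y - a), smul_smul, inv_mul_cancel₀ ht, one_smul]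
        rw [e1, norm_smul, norm_inv, Real.norm_eq_abs]
        rw [inv_mul_le_iff₀ htabs]
        exact hY)
      linarith)
    linarith

/-- Sequence data. -/
structure MSeq (f : X → ℝ) (u : ℕ → X) where
  P : ℕ → Jet f → ℝ → Prop
  z : ℕ → Jet f
  v : ℕ → ℝ
  r : ℕ → ℝ
  v0 : v 0 = Wf u (z 0).B
  P0 : ∀ a v, P 0 a v ↔ v = Wf u a.B
  PS : ∀ k a v, P (k+1) a v ↔ ∃ v₀ l, 0 ≤ l ∧ P k a v₀ ∧ Bd (z k) a l ∧ v = v₀ + (1/2)^(k+1) * l
  Pz : ∀ k, P k (z k) (v k)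
  vmono : ∀ k, v (k+1) ≤ v k
  rpos : ∀ k, 0 < r k
  rle : ∀ k, r k ≤ ((1/2)^k/16) * min 1 (z k).τ
  nest : ∀ k x, ‖x - (z (k+1)).x‖ ≤ 2 * r (k+1) → ‖x - (z k).x‖ < r k
  near : ∀ k (a : Jet f) w, ‖a.x - (z k).x‖ < r k → P (k+1) a w → v (k+1) ≤ w + (1/2)^(k+2) * (1/2)^(k+1)
  ranti : ∀ k, r (k+1) ≤ r k

theorem exists_mseq {f : X → ℝ} (u : ℕ → X) (z₀ : Jet f) : Nonempty (MSeq f u) := by
  obtain ⟨P, z, v, r, h1, h2, h3, h4, h5, h6, h7, h8, h9, h10, h11⟩ :=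
    main_seq u z₀ (fun k => (1/2)^(k+1)) (fun k => (1/2)^(k+2) * (1/2)^(k+1)) (fun k => (1/2)^k/16)
      (fun k => by positivity) (fun k => by positivity) (fun k => by positivity)
  exact ⟨⟨P, z, v, r, by rw [h2, h1], h3, h4, h5, h6, h7, h8, h9, h10, h11⟩⟩

namespace MSeq

variable {f : X → ℝ} {u : ℕ → X} (s : MSeq f u)

theorem Wf_le_of_P (k : ℕ) (a : Jet f) (w : ℝ) (h : s.P k a w) : Wf u a.B ≤ w := by
  induction k generalizing w with
  | zero => exact ((s.P0 a w).mp h).symm.le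
  | succ k ih =>
    obtain ⟨v₀, l, hl, h1, -, rfl⟩ := (s.PS k a w).mp h
    have := ih v₀ h1
    have : 0 ≤ (1/2 : ℝ)^(k+1) * l := by positivity
    linarith

theorem nonneg_of_P (k : ℕ) (a : Jet f) (w : ℝ) (h : s.P k a w) : 0 ≤ w :=
  le_trans (Wf_nonneg u a.B a.nonneg) (s.Wf_le_of_P k a w h)

theorem v_anti : Antitone s.v := antitone_nat_of_succ_le s.vmono

theorem extract (k l : ℕ) (hkl : k < l) (a : Jet f) (w : ℝ) (h : s.P l a w) :
    ∃ v₀ l', 0 ≤ l' ∧ s.P k a v₀ ∧ Bd (s.z k) a l' ∧ v₀ + (1/2)^(k+1) * l' ≤ w := by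
  induction l, hkl using Nat.le_induction generalizing w with
  | base =>
    obtain ⟨v₀, l, hl, h1, h2, rfl⟩ := (s.PS k a w).mp h
    exact ⟨v₀, l, hl, h1, h2, le_refl _⟩
  | succ l _ ih =>
    obtain ⟨v₀, l', hl, h1, -, rfl⟩ := (s.PS l a w).mp h
    obtain ⟨v₁, l'', hl'', h3, h4, h5⟩ := ih v₀ h1
    have : 0 ≤ (1/2 : ℝ)^(l+1) * l' := by positivity
    exact ⟨v₁, l'', hl'', h3, h4, by linarith⟩

theorem nest' (k l : ℕ) (hkl : k < l) (x : X) (h : ‖x - (s.z l).x‖ ≤ 2 * s.r l) :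
    ‖x - (s.z k).x‖ < s.r k := by
  induction l, hkl using Nat.le_induction with
  | base => exact s.nest k x h
  | succ l _ ih =>
    apply ih
    have := s.nest l x h
    have := s.rpos l
    linarith

theorem dist_lt (k l : ℕ) (hkl : k < l) : ‖(s.z l).x - (s.z k).x‖ < s.r k := by
  apply s.nest' k l hkl
  have := s.rpos l
  simp; positivity

theorem bd_eta (k l : ℕ) (hkl : k + 1 < l) : Bd (s.z (k+1)) (s.z l) ((1/2)^(k+1)) := by
  obtain ⟨v₀, l', hl', h1, h2, h3⟩ := s.extract (k+1) l hkl (s.z l) (s.v l) (s.Pz l)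
  have h4 := s.near k (s.z l) v₀ (s.dist_lt k l (by omega)) h1
  have h5 : s.v l ≤ s.v (k+1) := s.v_anti hkl.le
  have h6 : (1/2 : ℝ)^(k+2) * l' ≤ (1/2)^(k+2) * (1/2)^(k+1) := by
    have e : k + 1 + 1 = k + 2 := rfl
    rw [e] at h3
    linarith
  exact h2.mono (le_of_mul_le_mul_left h6 (by positivity))

theorem bd_zero (l : ℕ) (hl : 0 < l) : Bd (s.z 0) (s.z l) (2 * s.v 0) := by
  obtain ⟨v₀, l', hl', h1, h2, h3⟩ := s.extract 0 l hl (s.z l) (s.v l) (s.Pz l)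
  have h4 := s.nonneg_of_P 0 _ _ h1
  have h5 : s.v l ≤ s.v 0 := s.v_anti hl.le
  apply h2.mono
  norm_num at h3
  linarith

theorem v_nonneg (k : ℕ) : 0 ≤ s.v k := s.nonneg_of_P k _ _ (s.Pz k)

/-- uniform bound -/
noncomputable def N (s : MSeq f u) : ℝ := ‖(s.z 0).B‖ + 2 * s.v 0 + 1

theorem N_pos : 1 ≤ s.N := by
  unfold N
  have := s.v_nonneg 0
  have := norm_nonneg (s.z 0).B
  linarith

theorem B_le (k : ℕ) (h : X) : (s.z k).B h h ≤ (s.N - 1) * ‖h‖^2 := by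
  have h1 : (s.z 0).B h h ≤ ‖(s.z 0).B‖ * ‖h‖^2 := by
    have := (s.z 0).B.le_opNorm₂ h h
    calc (s.z 0).B h h ≤ ‖(s.z 0).B h h‖ := Real.le_norm_self _
      _ ≤ ‖(s.z 0).B‖ * ‖h‖ * ‖h‖ := this
      _ = _ := by ring
  have hv := s.v_nonneg 0
  have h3 : 0 ≤ 2 * s.v 0 * ‖h‖^2 := by positivity
  unfold N
  rcases Nat.eq_zero_or_pos k with hk | hk
  · subst hk; linarith
  · have h2 := (s.bd_zero k hk).2 h
    linarith

theorem r_le_tau (k : ℕ) : s.r k ≤ (s.z k).τ / 16 := by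
  have h1 := s.rle k
  have h2 : min 1 (s.z k).τ ≤ (s.z k).τ := min_le_right _ _
  have h3 : (1/2 : ℝ)^k ≤ 1 := pow_le_one₀ (by norm_num) (by norm_num)
  have h4 := (s.z k).τpos
  have h5 : (0:ℝ) < min 1 (s.z k).τ := by positivity
  have h6 : ((1/2 : ℝ)^k/16) * min 1 (s.z k).τ ≤ (1/16) * (s.z k).τ := by gcongr
  linarith

theorem r_le_tau' (k : ℕ) : s.r k ≤ ((1/2)^k/16) * (s.z k).τ := by
  have h1 := s.rle k
  have h2 : min 1 (s.z k).τ ≤ (s.z k).τ := min_le_right _ _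
  have h6 : ((1/2 : ℝ)^k/16) * min 1 (s.z k).τ ≤ ((1/2)^k/16) * (s.z k).τ := by gcongr
  linarith

theorem r_le_pow (k : ℕ) : s.r k ≤ (1/2)^k := by
  have h1 := s.rle k
  have h2 : min 1 (s.z k).τ ≤ 1 := min_le_left _ _
  have h4 := (s.z k).τpos
  have h5 : (0:ℝ) < min 1 (s.z k).τ := by positivity
  have h6 : ((1/2 : ℝ)^k/16) * min 1 (s.z k).τ ≤ ((1/2)^k/16) * 1 := by gcongr
  have h7 : (0:ℝ) < (1/2)^k := by positivity
  linarith

theorem cauchy_x : CauchySeq (fun k => (s.z k).x) := by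
  apply cauchySeq_of_le_geometric (1/2) 1 (by norm_num)
  intro k
  rw [dist_comm, dist_eq_norm, one_mul]
  exact le_trans (s.dist_lt k (k+1) (by omega)).le (s.r_le_pow k)

/-- Upper bound with constant `N` on a fixed ball -/
theorem up_N (l : ℕ) (hl : 0 < l) (y : X) (hy : ‖y - (s.z 0).x‖ ≤ (s.z 0).τ) :
    f y ≤ f (s.z l).x + ⟪(s.z l).p, y - (s.z l).x⟫_ℝ + s.N * ‖y - (s.z l).x‖^2 := by
  have h1 := (s.bd_zero l hl).1 y hy
  have h2 : (s.z 0).B (y - (s.z l).x) (y - (s.z l).x) ≤ ‖(s.z 0).B‖ * ‖y - (s.z l).x‖^2 := by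
    have := (s.z 0).B.le_opNorm₂ (y - (s.z l).x) (y - (s.z l).x)
    calc _ ≤ ‖(s.z 0).B (y - (s.z l).x) (y - (s.z l).x)‖ := Real.le_norm_self _
      _ ≤ ‖(s.z 0).B‖ * ‖y - (s.z l).x‖ * ‖y - (s.z l).x‖ := this
      _ = _ := by ring
  unfold N
  nlinarith [sq_nonneg ‖y - (s.z l).x‖]

theorem cauchy_p : CauchySeq (fun k => (s.z (k+1)).p) := by
  apply cauchySeq_of_le_geometric (1/2) (4 * s.N) (by norm_num)
  intro k
  rw [dist_comm, dist_eq_norm]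
  have hd := (s.dist_lt (k+1) (k+1+1) (by omega)).le
  have hd0 := (s.dist_lt 0 (k+1) (by omega)).le
  have ht0 := s.r_le_tau 0
  have ht0' := (s.z 0).τpos
  have hN := s.N_pos
  have hrr : s.r (k+1) ≤ s.r 0 := (antitone_nat_of_succ_le s.ranti) (Nat.zero_le _)
  have h := grad_lip f (s.z (k+1)).x (s.z (k+1+1)).x (s.z (k+1)).p (s.z (k+1+1)).p s.N ((s.z 0).τ/2) (s.r (k+1))
    (fun y hy => s.up_N (k+1) (by omega) y (by
      have : y - (s.z 0).x = (y - (s.z (k+1)).x) + ((s.z (k+1)).x - (s.z 0).x) := by abel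
      rw [this]
      have := norm_add_le (y - (s.z (k+1)).x) ((s.z (k+1)).x - (s.z 0).x)
      linarith))
    (s.z (k+1)).sub (s.z (k+1+1)).sub (by linarith) (s.rpos _) (by linarith) hd
  have h2 := s.r_le_pow (k+1)
  have h3 : (1/2 : ℝ)^(k+1) ≤ (1/2)^k := by
    rw [pow_succ]; have : (0:ℝ) < (1/2)^k := by positivity
    linarith
  have h4 : s.r (k+1) ≤ (1/2)^k := by linarith
  calc _ ≤ 4 * s.N * s.r (k+1) := h
    _ ≤ 4 * s.N * (1/2)^k := by gcongr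

end MSeq

end Pool.Agent.Helper22.SO
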