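import Pool.Agent.Helper22.A4

set_option autoImplicit false
set_option maxHeartbeats 4000000
set_option linter.unusedSectionVars false
open scoped InnerProductSpace Topology
open Filter Set

namespace Pool.Agent.Helper22.SO

variable {X : Type*} [NormedAddCommGroup X] [InnerProductSpace ℝ X]

/-- The form `B_k + η_k ⟪·,·⟫`. -/
noncomputable def addip (B : X →L[ℝ] X →L[ℝ] ℝ) (m : ℝ) : X →L[ℝ] X →L[ℝ] ℝ := B + m • ip X

theorem addip_apply (B : X →L[ℝ] X →L[ℝ] ℝ) (m : ℝ) (u v : X) :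
    addip B m u v = B u v + m * ⟪u, v⟫_ℝ := rfl

theorem addip_self (B : X →L[ℝ] X →L[ℝ] ℝ) (m : ℝ) (u : X) :
    addip B m u u = B u u + m * ‖u‖^2 := by rw [addip_apply, real_inner_self_eq_norm_sq]

theorem addip_symm (B : X →L[ℝ] X →L[ℝ] ℝ) (hB : ∀ u v, B u v = B v u) (m : ℝ) (u v : X) :
    addip B m u v = addip B m v u := by rw [addip_apply, addip_apply, hB, real_inner_comm]

namespace MSeq

variable {f : X → ℝ} {u : ℕ → X} (s : MSeq f u)

/-- Transfer of values in the relations `P j`. -/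
theorem transfer_P (k : ℕ) (z' : Jet f) (A d : ℝ) (hA : 0 ≤ A) (hd : 0 ≤ d)
    (hB : ∀ j < k, ∀ l, 0 ≤ l → Bd (s.z j) (s.z k) l → Bd (s.z j) z' (l * (1 + d) + A))
    (j : ℕ) (hj : j ≤ k) (w : ℝ) (hw : s.P j (s.z k) w) :
    ∃ w', s.P j z' w' ∧ w' ≤ w + d * (w - Wf u (s.z k).B) + (Wf u z'.B - Wf u (s.z k).B)
      + (1 - (1/2)^j) * A := by
  induction j generalizing w with
  | zero =>
    have h1 := (s.P0 _ _).mp hw
    refine ⟨Wf u z'.B, (s.P0 _ _).mpr rfl, ?_⟩
    rw [h1]; simp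
  | succ j ih =>
    obtain ⟨v₀, l, hl, h1, h2, rfl⟩ := (s.PS j _ w).mp hw
    obtain ⟨w', hw', hle⟩ := ih (by omega) v₀ h1
    refine ⟨w' + (1/2)^(j+1) * (l * (1 + d) + A), (s.PS j _ _).mpr ⟨w', l * (1 + d) + A, by positivity, hw',
      hB j (by omega) l hl h2, rfl⟩, ?_⟩
    have e : (1/2 : ℝ)^(j+1) = (1/2)^j - (1/2)^(j+1) := by rw [pow_succ]; ring
    have e2 : (1/2 : ℝ)^(j+1) * A = ((1/2)^j - (1/2)^(j+1)) * A := by rw [← e]
    nlinarith

/-- Data of the limit point. -/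
structure Lim (s : MSeq f u) (a p : X) : Prop where
  hx : Tendsto (fun k => (s.z k).x) atTop (𝓝 a)
  hp : Tendsto (fun k => (s.z (k+1)).p) atTop (𝓝 p)

theorem exists_lim [CompleteSpace X] : ∃ a p, Lim s a p := by
  obtain ⟨a, ha⟩ := cauchySeq_tendsto_of_complete s.cauchy_x
  obtain ⟨p, hp⟩ := cauchySeq_tendsto_of_complete s.cauchy_p
  exact ⟨a, p, ha, hp⟩

variable {a p : X} (L : Lim s a p)
include L

theorem Lim.dist_le (k : ℕ) : ‖a - (s.z k).x‖ ≤ s.r k := by
  have h1 : Tendsto (fun l => ‖(s.z l).x - (s.z k).x‖) atTop (𝓝 ‖a - (s.z k).x‖) :=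
    (L.hx.sub_const _).norm
  refine le_of_tendsto h1 ?_
  filter_upwards [eventually_gt_atTop k] with l hl
  exact (s.dist_lt k l hl).le

theorem Lim.sub (hcont : Continuous f) (y : X) : f a + ⟪p, y - a⟫_ℝ ≤ f y := by
  have h1 : Tendsto (fun k => f (s.z (k+1)).x + ⟪(s.z (k+1)).p, y - (s.z (k+1)).x⟫_ℝ) atTop
      (𝓝 (f a + ⟪p, y - a⟫_ℝ)) := by
    have hx' := L.hx.comp (tendsto_add_atTop_nat 1)
    exact ((hcont.tendsto a).comp hx').add (L.hp.inner (tendsto_const_nhds.sub hx'))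
  exact le_of_tendsto h1 (Eventually.of_forall (fun k => (s.z (k+1)).sub y))

theorem Lim.up (hcont : Continuous f) (k : ℕ) (y : X) (hy : ‖y - (s.z (k+1)).x‖ ≤ (s.z (k+1)).τ) :
    f y ≤ f a + ⟪p, y - a⟫_ℝ + addip (s.z (k+1)).B ((1/2)^(k+1)) (y - a) (y - a) := by
  rw [addip_self, ← add_assoc]
  have hx' := L.hx.comp (tendsto_add_atTop_nat 1)
  have h1 : Tendsto (fun l => f (s.z (l+1)).x + ⟪(s.z (l+1)).p, y - (s.z (l+1)).x⟫_ℝ +
      (s.z (k+1)).B (y - (s.z (l+1)).x) (y - (s.z (l+1)).x) + (1/2)^(k+1) * ‖y - (s.z (l+1)).x‖^2) atTop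
      (𝓝 (f a + ⟪p, y - a⟫_ℝ + (s.z (k+1)).B (y - a) (y - a) + (1/2)^(k+1) * ‖y - a‖^2)) := by
    have h2 := (tendsto_const_nhds (x := y) (f := atTop)).sub hx'
    have h3 : Continuous (fun w : X => (s.z (k+1)).B w w) := by fun_prop
    exact ((((hcont.tendsto a).comp hx').add (L.hp.inner h2)).add ((h3.tendsto _).comp h2)).add
      ((h2.norm.pow 2).const_mul _)
  refine ge_of_tendsto h1 ?_
  filter_upwards [eventually_gt_atTop k] with l hl
  exact (s.bd_eta k (l+1) (by omega)).1 y hy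

omit L in
theorem addip_le (k : ℕ) (h : X) : addip (s.z k).B ((1/2)^k) h h ≤ s.N * ‖h‖^2 := by
  rw [addip_self]
  have h1 := s.B_le k h
  have h2 : (1/2 : ℝ)^k ≤ 1 := pow_le_one₀ (by norm_num) (by norm_num)
  nlinarith [sq_nonneg ‖h‖]

omit L in
theorem addip_nonneg (k : ℕ) (h : X) : 0 ≤ addip (s.z k).B ((1/2)^k) h h := by
  rw [addip_self]
  have h1 := (s.z k).nonneg h
  positivity

/-- The main comparison. -/
theorem Lim.lower [CompleteSpace X] (hf : ConvexOn ℝ univ f) (hcont : Continuous f) (hu : DenseRange u)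
    (e : X) (he : ‖e‖ = 1) (ν : ℝ) (hν : 0 < ν) (hνN : ν ≤ s.N) :
    ∃ k₀ : ℕ, ∀ k, k₀ ≤ k → ∀ t : ℝ, 0 < |t| → |t| ≤ s.r (k+1) / 2 →
      f a + t * ⟪p, e⟫_ℝ + t^2 * (addip (s.z (k+1)).B ((1/2)^(k+1)) e e - ν) ≤ f (a + t • e) := by
  have hN1 := s.N_pos
  have hN : 0 < s.N := by linarith
  obtain ⟨Γ, hΓ, hb⟩ := barrier' (X := X) s.N ν hN hν hνN
  -- choose j
  obtain ⟨j, hj⟩ : ∃ j, ‖u j - e‖ < 1 / (2 * Γ) := by
    obtain ⟨j, hj⟩ := hu.exists_dist_lt e (show 0 < 1 / (2 * Γ) by positivity)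
    exact ⟨j, by rwa [← dist_eq_norm, dist_comm]⟩
  have hwj := wt_pos u j
  obtain ⟨m₀, hm₀, hb⟩ := hb (12 / wt u j) (by positivity)
  -- choose k₀
  set Q : ℝ := 2 * s.v 0 + 10 * s.N + 10 with hQ
  have hv0 := s.v_nonneg 0
  have hQpos : 0 < Q := by positivity
  obtain ⟨k₀, hk₀⟩ := exists_pow_lt_of_lt_one (show 0 < m₀ / Q by positivity) (show (1/2 : ℝ) < 1 by norm_num)
  refine ⟨k₀, fun k hk t ht htr => ?_⟩
  by_contra hcon
  push Not at hcon
  have ht0 : t ≠ 0 := abs_pos.mp ht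
  set K := k + 1 with hK
  set z := s.z K with hz
  set η : ℝ := (1/2)^K with hη
  have hηpos : 0 < η := by positivity
  set C := addip z.B η with hC
  have hCs : ∀ u v, C u v = C v u := addip_symm z.B z.symm η
  have hC0 : ∀ h, 0 ≤ C h h := s.addip_nonneg K
  have hCN : ∀ h, C h h ≤ s.N * ‖h‖^2 := s.addip_le K
  have hrτ := s.r_le_tau K
  have hrτ' := s.r_le_tau' K
  have hτpos := z.τpos
  have hrpos := s.rpos K
  have hdist := L.dist_le s K
  obtain ⟨x', p', M, ℓ, hx', hM, hKM, hℓ, hglob, τ', hτ', hloc⟩ := hb f C {y | ‖y - z.x‖ ≤ z.τ} a p e t η hf hcont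
    (L.sub s hcont) hCs hC0 hCN
    (isClosed_le (by fun_prop) (by fun_prop)) ht0
    (fun y hy => by
      rw [Set.mem_ofPred_eq]
      have e1 : y - z.x = (y - a) + (a - z.x) := by abel
      rw [e1]
      have := norm_add_le (y - a) (a - z.x)
      linarith)
    (fun y hy => L.up s hcont k y hy) he hcon.le hηpos
  -- ℓ (u j) is large
  have hMpos : 0 < M := lt_of_lt_of_le hm₀ hM
  have hgain : 3 * M ≤ wt u j * (ℓ (u j))^2 := by
    have h1 := hℓ (u j - e)
    have h2 : Γ * |ℓ e| * ‖u j - e‖ ≤ Γ * |ℓ e| * (1 / (2 * Γ)) := by gcongr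
    have h3 : Γ * |ℓ e| * (1 / (2 * Γ)) = |ℓ e| / 2 := by field_simp
    have h4 : |ℓ e| / 2 ≤ |ℓ (u j)| := by
      have e1 : ℓ (u j) = ℓ e + ℓ (u j - e) := by rw [← map_add]; congr 1; abel
      have h5 : |ℓ e| ≤ |ℓ (u j)| + |ℓ (u j - e)| := by
        have e2 : ℓ e = ℓ (u j) - ℓ (u j - e) := by rw [e1]; ring
        rw [e2]; exact abs_sub _ _
      linarith
    have h5 : (|ℓ e| / 2)^2 ≤ |ℓ (u j)|^2 := by gcongr
    rw [sq_abs, div_pow, sq_abs] at h5
    have h6 : 12 * M ≤ wt u j * (ℓ e)^2 := by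
      have : wt u j * (12 / wt u j * M) ≤ wt u j * (ℓ e)^2 := by gcongr
      have e1 : wt u j * (12 / wt u j * M) = 12 * M := by field_simp
      linarith
    nlinarith
  -- the new jet
  have hnewup : ∀ y, ‖y - x'‖ ≤ τ' → f y ≤ f x' + ⟪p', y - x'⟫_ℝ +
      (addip C (2 * η + M) - ℓ.smulRight ℓ) (y - x') (y - x') := by
    intro y hy
    have h1 := hloc y hy
    have h2 : (addip C (2 * η + M) - ℓ.smulRight ℓ) (y - x') (y - x') =
        C (y - x') (y - x') + (2 * η + M) * ‖y - x'‖^2 - (ℓ (y - x'))^2 := by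
      rw [sub_apply, sub_apply, addip_self, ContinuousLinearMap.smulRight_apply, smul_apply, smul_eq_mul]
      ring
    rw [h2]; linarith
  have hnewsub : ∀ y, f x' + ⟪p', y - x'⟫_ℝ ≤ f y := by
    apply sub_of_up f hf x' p' (s.N + 2 * η + M) τ' hτ'
    intro y hy
    have h1 := hloc y hy
    have h2 := hCN (y - x')
    nlinarith [sq_nonneg (ℓ (y - x'))]
  let z' : Jet f :=
    { x := x', p := p', B := addip C (2 * η + M) - ℓ.smulRight ℓ, τ := τ', τpos := hτ',
      symm := fun u v => by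
        rw [sub_apply, sub_apply, sub_apply, sub_apply, addip_symm C hCs, ContinuousLinearMap.smulRight_apply,
          ContinuousLinearMap.smulRight_apply, smul_apply, smul_apply, smul_eq_mul, smul_eq_mul, mul_comm (ℓ u)]
      sub := hnewsub
      up := hnewup }
  have hz'B : ∀ h, z'.B h h = z.B h h + (3 * η + M) * ‖h‖^2 - (ℓ h)^2 := by
    intro h
    show (addip C (2 * η + M) - ℓ.smulRight ℓ) h h = _
    rw [sub_apply, sub_apply, addip_self, ContinuousLinearMap.smulRight_apply, smul_apply, smul_eq_mul, hC,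
      addip_self]
    ring
  -- W gain
  have hW : Wf u z'.B + wt u j * (ℓ (u j))^2 ≤ Wf u z.B + (3 * η + M) :=
    Wf_le u z'.B z.B (3 * η + M) (by positivity) ℓ j (fun h => (hz'B h).le)
  -- positions
  have hxz : ‖x' - z.x‖ ≤ 2 * s.r K := by
    have e1 : x' - z.x = (x' - a) + (a - z.x) := by abel
    rw [e1]
    have := norm_add_le (x' - a) (a - z.x)
    linarith
  have hxz' : ‖x' - (s.z k).x‖ < s.r k := s.nest k x' hxz
  -- gradient difference
  have hpp : ‖p' - z.p‖ ≤ 4 * s.N * (2 * s.r K) := by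
    apply grad_lip f z.x x' z.p p' s.N z.τ (2 * s.r K) _ z.sub hnewsub hN.le (by positivity) (by linarith) hxz
    intro y hy
    have h1 := z.up y hy
    have h2 := s.B_le K (y - z.x)
    have h3 : (s.N - 1) * ‖y - z.x‖^2 ≤ s.N * ‖y - z.x‖^2 := by gcongr; linarith
    linarith
  -- transfer of bounds
  have htr : ∀ j < K, ∀ l, 0 ≤ l → Bd (s.z j) z l → Bd (s.z j) z' (l * (1 + η) + (3 * η + M + 4 * s.N * η)) := by
    intro i hi l hl hBd
    refine ⟨fun y hy => ?_, fun h => ?_⟩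
    · by_cases hyz : ‖y - z.x‖ ≤ z.τ
      · have h1 := hglob y hyz
        have h2 := hBd.2 (y - x')
        have h3 : C (y - x') (y - x') = z.B (y - x') (y - x') + η * ‖y - x'‖^2 := addip_self _ _ _
        show f y ≤ f x' + ⟪p', y - x'⟫_ℝ + (s.z i).B (y - x') (y - x') + _
        rw [h3] at h1
        have h4 : 0 ≤ ‖y - x'‖^2 := by positivity
        have h5 : (l + (2 * η + M)) * ‖y - x'‖^2 ≤ (l * (1 + η) + (3 * η + M + 4 * s.N * η)) * ‖y - x'‖^2 := by
          apply mul_le_mul_of_nonneg_right _ h4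
          nlinarith [mul_nonneg hl hηpos.le, mul_nonneg hN.le hηpos.le]
        linarith
      · push Not at hyz
        have h1 := hBd.1 y hy
        have hfar : z.τ / 2 ≤ ‖y - x'‖ := by
          have e1 : y - z.x = (y - x') + (x' - z.x) := by abel
          have h2 := norm_add_le (y - x') (x' - z.x)
          rw [← e1] at h2
          linarith
        have h2 := transfer f z.x x' z.p p' y (addip (s.z i).B l) (addip_symm _ (s.z i).symm l)
          (s.N + l) (4 * s.N) (η / 4) (z.τ / 2)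
          (form_bound _ (addip_symm _ (s.z i).symm l) (s.N + l)
            (fun h => by rw [addip_self]; have := (s.z i).nonneg h; positivity)
            (fun h => by
              rw [addip_self]
              have := s.B_le i h
              nlinarith [sq_nonneg ‖h‖]))
          (by positivity)
          (by
            have : η ≤ 1 := pow_le_one₀ (by norm_num) (by norm_num)
            linarith)
          (by positivity) (by positivity) (by positivity)
          (by rw [addip_self]; linarith)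
          (z.sub x')
          (by
            calc ‖p' - z.p‖ ≤ 4 * s.N * (2 * s.r K) := hpp
              _ ≤ 4 * s.N * (2 * (η / 16 * z.τ)) := by gcongr
              _ = 4 * s.N * (η / 4 * (z.τ / 2)) := by ring)
          hfar
          (by
            calc ‖x' - z.x‖ ≤ 2 * s.r K := hxz
              _ ≤ 2 * (η / 16 * z.τ) := by gcongr
              _ = η / 4 * (z.τ / 2) := by ring)
        rw [addip_self] at h2
        show f y ≤ f x' + ⟪p', y - x'⟫_ℝ + (s.z i).B (y - x') (y - x') + _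
        have h4 : 0 ≤ ‖y - x'‖^2 := by positivity
        have h5 : (l + η / 4 * (4 * s.N + 3 * (s.N + l))) * ‖y - x'‖^2 ≤
            (l * (1 + η) + (3 * η + M + 4 * s.N * η)) * ‖y - x'‖^2 := by
          apply mul_le_mul_of_nonneg_right _ h4
          nlinarith [mul_nonneg hl hηpos.le, mul_nonneg hN.le hηpos.le]
        linarith
    · rw [hz'B]
      have h1 := hBd.2 h
      have h4 : 0 ≤ ‖h‖^2 := by positivity
      have h5 : (l + (3 * η + M)) * ‖h‖^2 ≤ (l * (1 + η) + (3 * η + M + 4 * s.N * η)) * ‖h‖^2 := by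
        apply mul_le_mul_of_nonneg_right _ h4
        nlinarith [mul_nonneg hl hηpos.le, mul_nonneg hN.le hηpos.le]
      nlinarith [sq_nonneg (ℓ h)]
  obtain ⟨w', hw', hle⟩ := s.transfer_P K z' (3 * η + M + 4 * s.N * η) η (by positivity) hηpos.le htr K le_rfl
    (s.v K) (s.Pz K)
  have hnear := s.near k z' w' hxz' hw'
  have hvK : s.v K ≤ s.v 0 := s.v_anti (Nat.zero_le _)
  have hWz := Wf_nonneg u z.B z.nonneg
  have h1 : η * (s.v K - Wf u z.B) ≤ η * s.v 0 := by
    apply mul_le_mul_of_nonneg_left _ hηpos.le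
    linarith
  have h2 : (1 - (1/2)^K) * (3 * η + M + 4 * s.N * η) ≤ 1 * (3 * η + M + 4 * s.N * η) := by
    apply mul_le_mul_of_nonneg_right _ (by positivity)
    have : (0:ℝ) ≤ (1/2)^K := by positivity
    linarith
  have h3 : (1/2 : ℝ)^(k+2) * (1/2)^(k+1) ≤ η := by
    have a1 : (1/2 : ℝ)^(k+2) ≤ 1 := pow_le_one₀ (by norm_num) (by norm_num)
    calc (1/2 : ℝ)^(k+2) * (1/2)^(k+1) ≤ 1 * (1/2)^(k+1) := by gcongr
      _ = η := by rw [one_mul]
  have h4 : η < m₀ / Q := by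
    calc η = (1/2)^K := rfl
      _ ≤ (1/2)^k₀ := pow_le_pow_of_le_one (by norm_num) (by norm_num) (by omega)
      _ < m₀ / Q := hk₀
  rw [lt_div_iff₀ hQpos] at h4
  have h5 : η * Q = η * s.v 0 + η * s.v 0 + 10 * (s.N * η) + 10 * η := by rw [hQ]; ring
  have h6 : 0 ≤ η * s.v 0 := by positivity
  have h7 : 0 ≤ s.N * η := by positivity
  linarith

end MSeq

end Pool.Agent.Helper22.SO
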