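import Pool.Agent.Helper22.A5

set_option autoImplicit false
set_option maxHeartbeats 4000000
set_option linter.unusedSectionVars false
open scoped InnerProductSpace Topology
open Filter Set

namespace Pool.Agent.Helper22.SO

variable {X : Type*} [NormedAddCommGroup X] [InnerProductSpace ℝ X]

namespace MSeq

variable {f : X → ℝ} {u : ℕ → X} (s : MSeq f u)

/-- Convergence of the quadratic forms. -/
theorem conv_diag (h : X) : ∃ b : ℝ, Tendsto (fun k => (s.z (k+1)).B h h) atTop (𝓝 b) := by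
  set c : ℕ → ℝ := fun k => (s.z (k+1)).B h h + 2 * ((1/2)^(k+1) * ‖h‖^2) with hc
  have hanti : Antitone c := by
    apply antitone_nat_of_succ_le
    intro k
    have h1 := (s.bd_eta k (k+2) (by omega)).2 h
    simp only [hc]
    have e : (1/2 : ℝ)^(k+1+1) = (1/2)^(k+1) / 2 := by rw [pow_succ]; ring
    rw [e]
    have e2 : s.z (k + 1 + 1) = s.z (k + 2) := rfl
    rw [e2]
    linarith
  have hbdd : BddBelow (range c) := by
    refine ⟨0, ?_⟩
    rintro _ ⟨k, rfl⟩
    have := (s.z (k+1)).nonneg h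
    simp only [hc]
    positivity
  have h1 := tendsto_atTop_ciInf hanti hbdd
  have h2 : Tendsto (fun k : ℕ => 2 * ((1/2 : ℝ)^(k+1) * ‖h‖^2)) atTop (𝓝 (2 * (0 * ‖h‖^2))) := by
    have h3 : Tendsto (fun k : ℕ => ((1/2 : ℝ))^(k+1)) atTop (𝓝 0) :=
      (tendsto_pow_atTop_nhds_zero_of_lt_one (by norm_num) (by norm_num)).comp (tendsto_add_atTop_nat 1)
    exact (h3.mul_const _).const_mul _
  refine ⟨(⨅ i, c i) - 2 * (0 * ‖h‖^2), ?_⟩
  have h4 := h1.sub h2
  refine h4.congr (fun k => ?_)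
  simp only [hc]; ring

theorem conv (h h' : X) : ∃ b : ℝ, Tendsto (fun k => (s.z (k+1)).B h h') atTop (𝓝 b) := by
  obtain ⟨b₁, hb₁⟩ := s.conv_diag (h + h')
  obtain ⟨b₂, hb₂⟩ := s.conv_diag (h - h')
  refine ⟨1/4 * (b₁ - b₂), ?_⟩
  refine ((hb₁.sub hb₂).const_mul (1/4)).congr (fun k => ?_)
  have hs := (s.z (k+1)).symm h' h
  simp only [map_add, map_sub, add_apply, sub_apply, hs]
  ring

theorem exists_limit_form : ∃ B : X →L[ℝ] X →L[ℝ] ℝ, (∀ u v, B u v = B v u) ∧
    ∀ h h', Tendsto (fun k => (s.z (k+1)).B h h') atTop (𝓝 (B h h')) := by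
  choose b hb using s.conv
  have hadd1 : ∀ x y z, b (x + y) z = b x z + b y z := by
    intro x y z
    refine tendsto_nhds_unique (hb (x+y) z) (((hb x z).add (hb y z)).congr (fun k => ?_))
    simp only [map_add, add_apply]
  have hsmul1 : ∀ (c : ℝ) x z, b (c • x) z = c * b x z := by
    intro c x z
    refine tendsto_nhds_unique (hb (c • x) z) (((hb x z).const_mul c).congr (fun k => ?_))
    simp only [map_smul, smul_apply, smul_eq_mul]
  have hadd2 : ∀ x y z, b x (y + z) = b x y + b x z := by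
    intro x y z
    refine tendsto_nhds_unique (hb x (y+z)) (((hb x y).add (hb x z)).congr (fun k => ?_))
    simp only [map_add]
  have hsmul2 : ∀ (c : ℝ) x z, b x (c • z) = c * b x z := by
    intro c x z
    refine tendsto_nhds_unique (hb x (c • z)) (((hb x z).const_mul c).congr (fun k => ?_))
    simp only [map_smul, smul_eq_mul]
  let Bl : X →ₗ[ℝ] X →ₗ[ℝ] ℝ := LinearMap.mk₂ ℝ b hadd1 hsmul1 hadd2 hsmul2
  have hbound : ∀ x y, ‖Bl x y‖ ≤ s.N * ‖x‖ * ‖y‖ := by
    intro x y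
    show ‖b x y‖ ≤ _
    refine le_of_tendsto (hb x y).norm (Eventually.of_forall (fun k => ?_))
    have := form_bound (s.z (k+1)).B (s.z (k+1)).symm s.N (s.z (k+1)).nonneg (fun h => by
      have h1 := s.B_le (k+1) h
      nlinarith [sq_nonneg ‖h‖]) x y
    exact this
  refine ⟨Bl.mkContinuous₂ s.N hbound, ?_, ?_⟩
  · intro x y
    show b x y = b y x
    refine tendsto_nhds_unique (hb x y) ((hb y x).congr (fun k => ?_))
    exact (s.z (k+1)).symm _ _
  · intro x y
    exact hb x y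

end MSeq

/-- Main theorem. -/
theorem main_thm [CompleteSpace X] [TopologicalSpace.SeparableSpace X] (f : X → ℝ) (hcont : Continuous f)
    (hf : ConvexOn ℝ univ f) :
    ∃ (x y : X) (B : X →L[ℝ] X →L[ℝ] ℝ), (∀ u v : X, B u v = B v u) ∧
      ∀ h : X, (fun t : ℝ => f (x + t • h) - f x - ⟪y, t • h⟫_ℝ - t ^ 2 * B h h)
        =o[𝓝 (0 : ℝ)] (fun t : ℝ => t ^ 2) := by
  obtain ⟨z₀⟩ := exists_jet f hf hcont
  obtain ⟨s⟩ := exists_mseq (TopologicalSpace.denseSeq X) z₀
  obtain ⟨a, p, L⟩ := s.exists_lim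
  obtain ⟨B, hBs, hB⟩ := s.exists_limit_form
  refine ⟨a, p, B, hBs, ?_⟩
  -- unit vectors
  have hunit : ∀ e : X, ‖e‖ = 1 → ∀ c : ℝ, 0 < c → ∃ δ > 0, ∀ t : ℝ, |t| ≤ δ →
      |f (a + t • e) - f a - t * ⟪p, e⟫_ℝ - t^2 * B e e| ≤ c * t^2 := by
    intro e he c hc
    have hN := s.N_pos
    set ν := min (c/3) s.N with hν
    have hνpos : 0 < ν := by positivity
    obtain ⟨k₀, hk₀⟩ := L.lower s hf hcont (TopologicalSpace.denseRange_denseSeq X) e he ν hνpos (min_le_right _ _)
    have h1 : ∀ᶠ k in atTop, |(s.z (k+1)).B e e - B e e| < c/3 := by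
      have := hB e e
      rw [Metric.tendsto_nhds] at this
      simpa [Real.dist_eq] using this (c/3) (by positivity)
    have h2 : ∀ᶠ k : ℕ in atTop, (1/2 : ℝ)^(k+1) < c/3 := by
      have h3 : Tendsto (fun k : ℕ => ((1/2 : ℝ))^(k+1)) atTop (𝓝 0) :=
        (tendsto_pow_atTop_nhds_zero_of_lt_one (by norm_num) (by norm_num)).comp (tendsto_add_atTop_nat 1)
      exact h3.eventually_lt_const (by positivity)
    obtain ⟨k, hk1, hk2, hk3⟩ := (h1.and (h2.and (eventually_ge_atTop k₀))).exists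
    refine ⟨s.r (k+1) / 2, by have := s.rpos (k+1); positivity, ?_⟩
    intro t ht
    by_cases ht0 : t = 0
    · subst ht0; simp
    have htpos : 0 < |t| := abs_pos.mpr ht0
    have hlow := hk₀ k hk3 t htpos ht
    have hup := L.up s hcont k (a + t • e) (by
      have e1 : a + t • e - (s.z (k+1)).x = t • e + (a - (s.z (k+1)).x) := by abel
      have e2 := norm_add_le (t • e) (a - (s.z (k+1)).x)
      rw [norm_smul, he, mul_one, Real.norm_eq_abs] at e2
      rw [e1]
      have e3 := L.dist_le s (k+1)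
      have e4 := s.r_le_tau (k+1)
      have e5 := (s.z (k+1)).τpos
      have e6 := s.rpos (k+1)
      linarith)
    rw [add_sub_cancel_left, addip_self, inner_smul_right, norm_smul, he, mul_one] at hup
    simp only [map_smul, smul_apply, smul_eq_mul, Real.norm_eq_abs, sq_abs] at hup
    rw [addip_self, he] at hlow
    have h5 := abs_lt.mp hk1
    have h6 : ν ≤ c/3 := min_le_left _ _
    have ht2 : 0 ≤ t^2 := sq_nonneg t
    rw [abs_le]
    constructor
    · have h7 : t^2 * (B e e - c) ≤ t^2 * ((s.z (k+1)).B e e + (1/2)^(k+1) * 1^2 - ν) := by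
        apply mul_le_mul_of_nonneg_left _ ht2
        have : (0:ℝ) < (1/2)^(k+1) := by positivity
        linarith
      linarith
    · have h7 : t^2 * ((s.z (k+1)).B e e + (1/2)^(k+1)) ≤ t^2 * (B e e + c) := by
        apply mul_le_mul_of_nonneg_left _ ht2
        linarith
      have h8 : t * (t * (s.z (k+1)).B e e) = t^2 * (s.z (k+1)).B e e := by ring
      rw [h8] at hup
      linarith
  intro h
  rw [Asymptotics.isLittleO_iff]
  intro c hc
  by_cases hh : h = 0
  · subst hh; simp; filter_upwards with t; positivity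
  have hn : 0 < ‖h‖ := norm_pos_iff.mpr hh
  set e : X := ‖h‖⁻¹ • h with he
  have hen : ‖e‖ = 1 := by rw [he, norm_smul, norm_inv, norm_norm, inv_mul_cancel₀ hn.ne']
  have hhe : h = ‖h‖ • e := by rw [he, smul_smul, mul_inv_cancel₀ hn.ne', one_smul]
  obtain ⟨δ, hδ, hd⟩ := hunit e hen (c / ‖h‖^2) (by positivity)
  have hev : ∀ᶠ t : ℝ in 𝓝 0, |t * ‖h‖| ≤ δ := by
    have h1 : Tendsto (fun t : ℝ => |t * ‖h‖|) (𝓝 0) (𝓝 |0 * ‖h‖|) := by
      apply Continuous.tendsto; fun_prop
    rw [zero_mul, abs_zero] at h1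
    exact h1.eventually_le_const hδ
  filter_upwards [hev] with t ht
  have h1 := hd (t * ‖h‖) ht
  have e1 : (t * ‖h‖) • e = t • h := by rw [mul_smul, ← hhe]
  have e2 : (t * ‖h‖) * ⟪p, e⟫_ℝ = ⟪p, t • h⟫_ℝ := by rw [← inner_smul_right, e1]
  have e3 : (t * ‖h‖)^2 * B e e = t^2 * B h h := by
    conv_rhs => rw [hhe]
    simp only [map_smul, smul_apply, smul_eq_mul]; ring
  rw [e1, e2, e3] at h1
  rw [Real.norm_eq_abs, Real.norm_eq_abs, abs_of_nonneg (sq_nonneg t)]
  calc _ ≤ c / ‖h‖^2 * (t * ‖h‖)^2 := h1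
    _ = c * t^2 := by field_simp

end Pool.Agent.Helper22.SO
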